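import Mathlib
import Pool.Agent.helper12.FI3.Defs
import Pool.Agent.helper58.FI.SpecC
import Pool.Agent.helper22.FI.SpecA

/-!
# Project fi3 (MP_baa4d7_al): interface of block P3 and block F3

`FRA3_stmt`, `HTZ3_stmt`, `DOR3_stmt`, `DDT3_stmt`: the statements `FRA`, `HTZ`, `DOR`, `DDT` of `helper58/FI/SpecC` for `Lo3` (block P3).
`fZ M D θ Z U = (|D : Z| - |Y : Z|) + |Y : Z| * |U : cz D|²`.
-/

set_option autoImplicit false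

namespace Pool.Agent.FI3F

open Pool.Agent.helper58.DC Pool.Agent.DI Pool.Agent.GR Pool.Agent.OB Pool.Agent.DR Pool.Agent.FI Pool.Agent.FI3

/-- `(|D : Z| - |Y : Z|) + |Y : Z| * |U : cz D|²` -/
noncomputable def fZ {G : Type} [Group G] (M : Ideal (integralClosure ℤ ℂ)) (D : Subgroup G) (θ : G → ℂ)
    (Z U : Subgroup G) : ℕ :=
  (Z.relIndex D - Z.relIndex (YY M D θ)) + Z.relIndex (YY M D θ) * ((cz D).relIndex U) ^ 2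

/-- **FRA3** (block P3; port of FRA). -/
def FRA3_stmt : Prop :=
  ∀ (p : ℕ) (M : Ideal (integralClosure ℤ ℂ)), Setup p M → ∀ (G : Type) [Group G] [Finite G]
    (D : Subgroup G) (x : G) (θ χ : G → ℂ), Lo3 p M D x θ χ → ∀ P ≤ D,
    (cz D ≤ TT M D θ ∧ cz D ≤ cz P ∧ D ≤ cz P ∧ (P ≤ YY M D θ → TT M D θ ≤ cz P) ∧
      (¬ P ≤ YY M D θ → TT M D θ ⊓ cz P = cz D)) ∧
    (∀ n ∈ nz P, ∀ ψ ∈ Bl M (cz P) θ, cjF n ψ ∈ Bl M (cz P) θ → ∃ k ∈ cz P, k * n ∈ TT M D θ) ∧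
    (∀ t ∈ TT M D θ, t ∈ nz P → ∀ ψ ∈ Bl M (cz P) θ, cjF t ψ ∈ Bl M (cz P) θ)

/-- **HTZ3** (block P3; port of HTZ). -/
def HTZ3_stmt : Prop :=
  ∀ (p : ℕ) (M : Ideal (integralClosure ℤ ℂ)), Setup p M → ∀ (G : Type) [Group G] [Finite G]
    (D : Subgroup G) (x : G) (θ χ : G → ℂ), Lo3 p M D x θ χ → ∀ P ≤ D, Good p M D (cz P) θ →
    ∀ ψ ∈ Bl M (cz P) θ, ∀ a : ℕ, Nat.card D = p ^ a → Defect p (cz P) ψ a

/-- **DOR3** (block P3; port of DOR). -/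
def DOR3_stmt : Prop :=
  ∀ (p : ℕ) (M : Ideal (integralClosure ℤ ℂ)), Setup p M → ∀ (G : Type) [Group G] [Finite G]
    (D : Subgroup G) (x : G) (θ χ : G → ℂ), Lo3 p M D x θ χ → ∀ P ≤ D, ∀ a ∈ D, ∀ u ∈ D,
    Good p M D (Cz (cz P) a) θ → Good p M D (Cz (cz P) u) θ →
    (∀ χ' ∈ IrrOn (cz P), χ' ∉ Bl M (cz P) θ → dd M (Cz (cz P) u) θ χ' u = 0) ∧
    (a = u → ∑ᶠ χ' ∈ Bl M (cz P) θ, dd M (Cz (cz P) a) θ χ' a *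
      (starRingEnd ℂ) (dd M (Cz (cz P) u) θ χ' u) = Nat.card D) ∧
    ((¬ ∃ t ∈ TT M D θ ⊓ cz P, t * u * t⁻¹ = a) →
      ∑ᶠ χ' ∈ Bl M (cz P) θ, dd M (Cz (cz P) a) θ χ' a *
        (starRingEnd ℂ) (dd M (Cz (cz P) u) θ χ' u) = 0)

/-- **DDT3** (block P3; port of DDT). -/
def DDT3_stmt : Prop :=
  ∀ (p : ℕ) (M : Ideal (integralClosure ℤ ℂ)), Setup p M → ∀ (G : Type) [Group G] [Finite G]
    (D : Subgroup G) (x : G) (θ χ : G → ℂ), Lo3 p M D x θ χ → ∀ P ≤ D, ∀ t ∈ TT M D θ, t ∈ nz P →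
    ∀ u ∈ D, ∀ ψ ∈ IrrOn (cz P),
    dd M (Cz (cz P) (t * u * t⁻¹)) θ (cjF t ψ) (t * u * t⁻¹) = dd M (Cz (cz P) u) θ ψ u

end Pool.Agent.FI3F
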