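import Mathlib
import Pool.Agent.helper58.FI3F.DefsF3

/-!
# Project fi3 (MP_baa4d7_al), block F3: chains relative to `L = C_G(P)`, `P ≤ Y`, starting at `Z = Zc D L`, characters over `1_Z`

OUTPUT. `FFF3` (used in GG3) and `FFD3` (the alternating sum for every `d`, `O_p(G) = 1`).

RULES. File `Pool/Agent/<seat>/FI3/XXX.lean` with

  import Pool.Agent.helper58.FI3F.SpecF3
  set_option autoImplicit false
  namespace Pool.Agent.FI3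
  open Pool.Agent.helper58.DC Pool.Agent.DI Pool.Agent.GR Pool.Agent.OB Pool.Agent.DR Pool.Agent.FI
  theorem XXX (hYYY : YYY_stmt) ... : XXX_stmt := ...
  end Pool.Agent.FI3

auxiliary lemmas prefixed `XXX_`, no sorry, no double quotes, no convert / congr!. Any other statement of this file, of `DefsF3`
(`FRA3 HTZ3 DOR3 DDT3`, block P3), of `helper58/FI/SpecC` (`FEQ FSI FBC FNR FNO FMX FTG FT0 FCE FCL FCN FOV HTN BPL ..`), `helper22/FI/SpecA`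
(`EXB ..`), `helper83/GR/Spec` (`SCH BR0 SFC ..`), `helper81/DI/Spec{A,B,C}`, `helper58/DC/Spec1` (`IF IM NM SN ..`), `helper35/DR/SpecC`
(`CUQ CCJ CFA ..`) may be taken as a hypothesis (no circles), they are proved or are rows. Most rows are ports of a row of V1: copy its file.

Notation as in V1, and `YY SFree iI Lo3 Lg3 XL Sg BZ` (`helper12/FI3/Defs`), `fZ` (`DefsF3`), `Zc` (`helper12/FI/DefsQ`, `Zc_mem`).
-/

set_option autoImplicit false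

namespace Pool.Agent.FI3F

open Pool.Agent.helper58.DC Pool.Agent.DI Pool.Agent.GR Pool.Agent.OB Pool.Agent.DR Pool.Agent.FI Pool.Agent.FI3

/-! ## 1. Groups and chains -/

/-- **FZC3** (short; from FRA3, FEQ). Facts on `L = cz P`, `Z = Zc D L`, `P ≤ Y`. Proof: `P ≤ Y ≤ D`; `D ≤ L` and `TT M D θ ≤ L` (FRA3 (1)).
An element of `Z` commutes with `L`, hence with `TT M D θ`: `Z ≤ Y`. `P ≤ Z`: `P ≤ D` and `P` commutes with `cz P`. `Z ≤ D ≤ L`. `IsPGroup p D` is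
`lo.rt.dfa.pgrp` (`IsPGroup.to_le`). If `Z ≤ Q` then `cz Q ≤ cz Z ≤ cz P` (`Subgroup.centralizer_le`), and `L ≤ cz Z`: `cz Z = L`. `cjS l Z = Z` for
`l ∈ L` (`mem_cjS`). An element `t` of `TT M D θ` commutes with `YY`; `t ∈ nz D` by definition. `Z ≠ D`, because `D` is not contained in `YY` (`lo.ny`).
`|TT| = |cz D| * iI` (`cz D ≤ TT`). -/
def FZC3_stmt : Prop :=
  ∀ (p : ℕ) (M : Ideal (integralClosure ℤ ℂ)), Setup p M → ∀ (G : Type) [Group G] [Finite G]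
    (D : Subgroup G) (x : G) (θ χ : G → ℂ), Lo3 p M D x θ χ → ∀ P ≤ YY M D θ,
    (P ≤ Zc D (cz P) ∧ Zc D (cz P) ≤ YY M D θ ∧ Zc D (cz P) < D ∧ D ≤ cz P ∧ IsPGroup p D ∧
      TT M D θ ≤ cz P ∧ TT M D θ ≤ nz D ∧ IsPGroup p (Zc D (cz P)) ∧ YY M D θ ≤ D) ∧
    (∀ l ∈ cz P, (∀ z ∈ Zc D (cz P), l * z = z * l) ∧ cjS l (Zc D (cz P)) = Zc D (cz P) ∧ cjS l (cz P) = cz P) ∧
    (∀ Q : Subgroup G, Zc D (cz P) ≤ Q → cz Q ≤ cz P) ∧ cz (Zc D (cz P)) = cz P ∧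
    (∀ t ∈ TT M D θ, ∀ y ∈ YY M D θ, t * y = y * t) ∧
    (∀ t ∈ TT M D θ, ∀ Q : Subgroup G, cjS t Q ≤ YY M D θ ↔ Q ≤ YY M D θ) ∧
    Nat.card (TT M D θ) = Nat.card (cz D) * iI M D θ

/-- **FMX3** (short; port of FMX, `Pool/Agent/helper96/FI/FMX.lean`, with `Z`, `L` instead of `⊥`, `⊤`). The largest term. -/
def FMX3_stmt : Prop :=
  ∀ (Γ : Type) [Group Γ] [Finite Γ] (p : ℕ) (L Z : Subgroup Γ) (C : Finset (Subgroup Γ)), NCh p L Z C →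
    C ≠ {Z} → ∃ Q ∈ C, Z < Q ∧ IsPGroup p Q ∧ Q ≤ L ∧ (∀ R ∈ C, R ≤ Q) ∧ Q ≤ nrm C ∧ nrm C ≤ nz Q ∧
      cz Q ≤ nrm C

open Classical in
/-- **FTG3** (short-medium; port of FTG, `Pool/Agent/helper79/FI/FTG.lean`, with `Z` instead of `⊥`). Toggle `D` on the chains of subgroups of `D`
different from `{Z}` and `{Z, D}`. The chain `{Z, D}` remains, its term is `(-1) ^ 3 * f (T ⊓ nrm {Z, D}) = - f T` (`T ≤ nz D`, `T ≤ nz Z`). -/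
def FTG3_stmt : Prop :=
  ∀ (Γ : Type) [Group Γ] [Finite Γ] (p : ℕ) [Fact p.Prime] (D T Z : Subgroup Γ), IsPGroup p D →
    Z < D → T ≤ nz D → T ≤ nz Z → ∀ f : Subgroup Γ → ℤ,
    ∑ᶠ C ∈ {C : Finset (Subgroup Γ) | PCh p D Z C ∧ C ≠ {Z}}, (-1) ^ (C.card + 1) * f (T ⊓ nrm C) =
      - f T

/-! ## 2. Subpairs -/

/-- **CNQ3** (short-medium; from FRA3, FEQ, FSI, EXB). Every relative subpair of `L = cz P` is conjugate in `L` to one in `D`. Proof (as QCN of V1,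
`Pool/Agent/helper2/FIB/QCN.lean`): `Induces M η χ` because of `SB M (cz P) η θ` and `lo.rt.ind` (FSI (2) for `L = cz P`; `cz Q ≤ cz P`). `lo.con` gives
`g` with `cjS g Q ≤ D`, `SB M (cz (cjS g Q)) θ (cjF g η)`. Let `P' = cjS g P ≤ D`, `ψ₀ ∈ IrrOn (cz P)` with `SB M (cz P) θ ψ₀` (EXB for `L = cz P`,
`Q = D`; `cz P ⊓ cz D = cz D`), `ψ = cjF g ψ₀ ∈ IrrOn (cz P')`. `SB M (cz P') θ (cjF g η)` (FSI (1), `cz (cjS g Q) ≤ cz P'`) and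
`SB M (cz P') (cjF g η) ψ` (FEQ, from `SB M (cz P) η ψ₀`), so `SB M (cz P') θ ψ`. `lo.cnj` for `P'`, `ψ`, `D₁ = cjS g D`, `θ₁ = cjF g θ`
(`SB M (cz P') (cjF g θ) (cjF g ψ₀)`): `k ∈ cz P'` with `cjS k D₁ = D`, `SB M (cz D) (cjF k θ₁) θ`: so `t = k * g ∈ TT M D θ`. Let
`l = t⁻¹ * g = g⁻¹ * k⁻¹ * g ∈ cz P`: `cjS l Q = cjS t⁻¹ (cjS g Q) ≤ D`, and `SB M (cz (cjS l Q)) θ (cjF l η)` from
`SB M (cz (cjS g Q)) θ (cjF g η)` by conjugation with `t⁻¹` and `SB M (cz (cjS l Q)) (cjF t⁻¹ θ) θ` (`t⁻¹ ∈ TT M D θ`, `cz D ≤ cz (cjS l Q)`, FSI (1)). -/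
def CNQ3_stmt : Prop :=
  ∀ (p : ℕ) (M : Ideal (integralClosure ℤ ℂ)), Setup p M → ∀ (G : Type) [Group G] [Finite G]
    (D : Subgroup G) (x : G) (θ χ : G → ℂ), Lo3 p M D x θ χ → ∀ P ≤ D, ∀ Q : Subgroup G, IsPGroup p Q →
    P ≤ Q → ∀ η ∈ IrrOn (cz Q), SB M (cz P) η θ →
    ∃ l ∈ cz P, cjS l Q ≤ D ∧ SB M (cz (cjS l Q)) θ (cjF l η)

/-- **FNG3** (medium; from CNQ3, FRA3, FZC3, FEQ, FSI; port of FNG, `Pool/Agent/helper96/FI/FNG.lean`). Counting. Proof: `g₀ ∈ A` by CNQ3, `A` the index set. For every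
`g₀ ∈ A` (not only this one): CLAIM `A = {t * g₀ * k | t ∈ T, k ∈ K}`, `T = TT M D θ`, `K = cz Q`. `⊇`: `t ∈ T ≤ cz P` (FZC3), `k ∈ cz Q ≤ cz P`; the rest as in
FNG. `⊆`: for `g ∈ A` the element `l ∈ cz (cjS g₀ Q)` of `lo.cnj` (for `D₁ = cjS (g₀ g⁻¹) D`) gives `t = l * g₀ * g⁻¹ ∈ T`, `g = t⁻¹ * g₀ * (g₀⁻¹ * l * g₀)`. The
fibres of `(t, k) ↦ t g₀ k` have `|T ⊓ cz (cjS g₀ Q)|` elements. So `|A| * |T ⊓ cz (cjS g₀ Q)| = |T| * |K|` for every `g₀ ∈ A`: all the summands are equal,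
and this is the claim. -/
def FNG3_stmt : Prop :=
  ∀ (p : ℕ) (M : Ideal (integralClosure ℤ ℂ)), Setup p M → ∀ (G : Type) [Group G] [Finite G]
    (D : Subgroup G) (x : G) (θ χ : G → ℂ), Lo3 p M D x θ χ → ∀ P ≤ YY M D θ, ∀ Q : Subgroup G,
    IsPGroup p Q → P ≤ Q → ∀ η ∈ IrrOn (cz Q), SB M (cz P) η θ →
    ∑ᶠ g ∈ {g : G | g ∈ cz P ∧ cjS g Q ≤ D ∧ SB M (cz (cjS g Q)) θ (cjF g η)},
      Nat.card ↥(TT M D θ ⊓ cz (cjS g Q)) = Nat.card (TT M D θ) * Nat.card (cz Q)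

/-- **FCP3** (medium; from FRA3, FEQ, IF of DC; port of FCP, `Pool/Agent/helper6/FI/FCP.lean`). Stabilisers. Proof: (1) `Q ≤ Y`: `cz Q ≤ stF N ψ` (`ψ` is a class
function of `cz Q`); for `n ∈ stF N ψ` FRA3 (2) gives `k ∈ cz Q` with `k * n ∈ TT M D θ ≤ cz Q` (FRA3 (1)), so `n ∈ cz Q`. (2) as FCP
(`TT M D θ ⊓ cz Q = cz D`). -/
def FCP3_stmt : Prop :=
  ∀ (p : ℕ) (M : Ideal (integralClosure ℤ ℂ)), Setup p M → ∀ (G : Type) [Group G] [Finite G]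
    (D : Subgroup G) (x : G) (θ χ : G → ℂ), Lo3 p M D x θ χ → ∀ Q ≤ D, ∀ N : Subgroup G,
    cz Q ≤ N → N ≤ nz Q → ∀ ψ ∈ Bl M (cz Q) θ,
    (Q ≤ YY M D θ → stF N ψ = cz Q) ∧
    (¬ Q ≤ YY M D θ → CyS (cz Q) (stF N ψ) ∧ ¬ p ∣ (cz Q).relIndex (stF N ψ) ∧
      (cz Q).relIndex (stF N ψ) = (cz D).relIndex (stF (TT M D θ ⊓ N) ψ) ∧
      CyS (cz D) (TT M D θ ⊓ N))

/-! ## 3. Clifford theory and blocks -/

/-- **FOV3** (medium; from C5a, C3 of DI, CCJ of DR, IF of DC, SCH; port of FOV, `Pool/Agent/helper25/FI/FOV.lean`). Proof: (1) let `CF L z`, integral values, `z₁`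
its restriction to `N`, `z'` its restriction to `cz P` (both `N`-invariant); `cc φ z = cc φ z₁ ≡ cc φ z'` by C5a, and as in FOV `cc φ z' = cc ψ z' = cc ψ z`.
(2) `z ∈ cz P ≤ N` is central in `N`: `ψ' z = ψ z` for the `N`-conjugates `ψ'` of `ψ`, so `φ z / φ 1 = ψ z / ψ 1` (OverE), and `φ (z x) φ 1 = φ z φ x`
(SCH), `ψ (z x) ψ 1 = ψ z ψ x`; outside `N`, `cz P` both sides are `0`. -/
def FOV3_stmt : Prop :=
  ∀ (p : ℕ) (M : Ideal (integralClosure ℤ ℂ)), Setup p M → ∀ (G : Type) [Group G] [Finite G]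
    (P N L : Subgroup G), IsPGroup p P → P ≤ N → cz P ≤ N → N ≤ nz P → N ≤ L → ∀ φ ∈ IrrOn N,
    ∀ ψ ∈ IrrOn (cz P), ∀ e : ℕ, 0 < e → OverE (cz P) N φ ψ e →
    SB M L φ ψ ∧ ∀ z ∈ cz P, (∀ n ∈ N, n * z = z * n) →
      ((∀ x, φ (z * x) = φ x) ↔ ∀ x, ψ (z * x) = ψ x)

/-- **FKE3** (short; from SCH, IF of DC). Central elements in the kernel. Proof: (1) SCH for `x = z`, all `t z t⁻¹ = z`: `ψ (z x) ψ 1 = ψ z ψ x` (for `x ∉ K` both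
sides are `0`). (2) from (1): `ψ z = ψ 1` gives `ψ (z x) = ψ x`; conversely `x = 1`. -/
def FKE3_stmt : Prop :=
  ∀ (G : Type) [Group G] [Finite G] (K Z : Subgroup G), Z ≤ K → (∀ z ∈ Z, ∀ k ∈ K, k * z = z * k) →
    ∀ ψ ∈ IrrOn K, (∀ z ∈ Z, ∀ x, ψ (z * x) * ψ 1 = ψ z * ψ x) ∧
    ((∀ z ∈ Z, ∀ x, ψ (z * x) = ψ x) ↔ ∀ z : Z, ψ z = (((1 : Z →* ℂˣ) z : ℂˣ) : ℂ) * ψ 1)

/-- **F123** (short-medium; from FCN, FCL, FOV3, CFA of DR, FEQ; port of F12, `Pool/Agent/helper72/FI/F12.lean`). Proof: `B = BZ M L θ Z (cz Q)`; stable under `N ≤ L`: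
`cjS n (cz Q) = cz Q` (FEQ), `cc (cjF n ψ) z = cc ψ z` for `CF L z` (`cc_funMap`), and `cjF n ψ (z x) = ψ (z n⁻¹ x n)` (`z` is central). By CFA (1) and FOV3
`BZ M L θ Z N` is the set of the `φ ∈ IrrOn N` over some `ψ ∈ B`: FCN. Defects as in F12. -/
def F123_stmt : Prop :=
  ∀ (p : ℕ) (M : Ideal (integralClosure ℤ ℂ)), Setup p M → ∀ (G : Type) [Group G] [Finite G]
    (Q N L Z : Subgroup G) (θ : G → ℂ), IsPGroup p Q → Q ≤ N → cz Q ≤ N → N ≤ nz Q → N ≤ L → Z ≤ cz Q →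
    (∀ z ∈ Z, ∀ l ∈ L, l * z = z * l) →
    (∀ ψ ∈ BZ M L θ Z (cz Q), CyS (cz Q) (stF N ψ)) →
    Nat.card N * (BZ M L θ Z N).ncard =
      Nat.card (cz Q) * ∑ᶠ ψ ∈ BZ M L θ Z (cz Q), ((cz Q).relIndex (stF N ψ)) ^ 2 ∧
    ∀ d : ℤ, (∀ ψ ∈ BZ M L θ Z (cz Q), ¬ p ∣ (cz Q).relIndex (stF N ψ) ∧ Defect p (cz Q) ψ d) →
      ∀ φ ∈ BZ M L θ Z N, Defect p N φ d

/-! ## 4. Decomposition numbers over a central character -/

/-- **FZD3** (short-medium; from SCH, IF of DC). `dd` at `z u`. Proof: `Cz K (z u) = Cz K u =: H` (`z` commutes with `K`), `z ∈ H`. Let `ψ' ∈ IrrOn H`,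
`c = ψ z / ψ 1`, `c' = ψ' z / ψ' 1` (nonzero: `ψ (z x) ψ 1 = ψ z ψ x` with `x = z⁻¹`). `mt H ψ ψ' ≠ 0` implies `c = c'`: in
`∑_{x ∈ H} ψ x * ψ' x⁻¹` substitute `x ↦ z x`: `ψ (z x) = c ψ x`, `ψ' (x⁻¹ z⁻¹) = c'⁻¹ ψ' x⁻¹`, so the sum is `c c'⁻¹` times itself. So all
terms of `dd M H θ ψ (z u) = ∑ mt H ψ ψ' * (ψ' (z u) / ψ' 1)` are `c` times those of `dd M H θ ψ u`. -/
def FZD3_stmt : Prop :=
  ∀ (G : Type) [Group G] [Finite G] (M : Ideal (integralClosure ℤ ℂ)) (K : Subgroup G) (θ : G → ℂ),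
    ∀ z ∈ K, (∀ k ∈ K, k * z = z * k) → ∀ u ∈ K, ∀ ψ ∈ IrrOn K,
    dd M (Cz K (z * u)) θ ψ (z * u) * ψ 1 = ψ z * dd M (Cz K u) θ ψ u

/-- **FXC3** (short-medium; from BR0, FBC, FKE3, IF of DC). The number of characters over `1_Z` in a good block. Proof: let `b = Bl M K θ` (`|D|` elements, all
with the same degree `n`: `Good.reg`, `v = 1`). For `z ∈ Z`, `z ≠ 1`: BR0 (`y = z`, `y' = 1`, `v = v' = 1`; `b` is a union of blocks, FBC with `L = K`)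
gives `Sf b z 1 = ∑_{ψ ∈ b} ψ z * ψ 1 = 0`, so `∑_{ψ ∈ b} ψ z = 0`. Hence `∑_{ψ ∈ b} ∑_{z ∈ Z} ψ z = |D| n`. The inner sum is `|Z| n` if `ψ` is over `1_Z`
and `0` otherwise: `z ↦ ψ z / n` is multiplicative on `Z` (FKE3 (1)). -/
def FXC3_stmt : Prop :=
  ∀ (p : ℕ) (M : Ideal (integralClosure ℤ ℂ)), Setup p M → ∀ (G : Type) [Group G] [Finite G]
    (D K Z : Subgroup G) (θ : G → ℂ), IsPGroup p Z → Z ≤ K → (∀ z ∈ Z, ∀ k ∈ K, k * z = z * k) →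
    Good p M D K θ → (XL M K θ Z 1).ncard * Nat.card Z = Nat.card D

/-- **FXO3** (medium; from DOR3, FZD3, FKE3, FRA3). Orthogonality over `1_Z`. Proof: let `K = cz Q`, `b = Bl M K θ`, `X ψ u = dd M (Cz K u) θ ψ u`. `Z ≤ Q` is central in
`K`. For `ψ ∈ b`: `∑_{z ∈ Z} ψ z / ψ 1 = |Z|` if `ψ ∈ XL M K θ Z 1` and `0` otherwise (as in FXC3). So `|Z|` times the left sum is
`∑_{z ∈ Z} ∑_{ψ ∈ b} (ψ z / ψ 1) X ψ a conj (X ψ u) = ∑_{z ∈ Z} ∑_{ψ ∈ b} X ψ (z a) conj (X ψ u)` (FZD3). By DOR3 (all `Cz K v = cz (Q ⊔ zpowers v)`, `v ∈ D`, are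
good: `Q ⊔ zpowers v ≤ D` is not contained in `Y`) the inner sum is `|D|` if `z a = u`; otherwise `0`, because `TT M D θ ⊓ K = cz D` (FRA3 (1)) centralises `D`. So the
total is `|D|` if `u a⁻¹ ∈ Z` (one `z`) and `0` otherwise. -/
def FXO3_stmt : Prop :=
  ∀ (p : ℕ) (M : Ideal (integralClosure ℤ ℂ)), Setup p M → ∀ (G : Type) [Group G] [Finite G]
    (D : Subgroup G) (x : G) (θ χ : G → ℂ), Lg3 p M D x θ χ → ∀ Q ≤ D, ¬ Q ≤ YY M D θ → ∀ Z ≤ Q,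
    ∀ a ∈ D, ∀ u ∈ D,
    (u * a⁻¹ ∈ Z → (Nat.card Z : ℂ) * ∑ᶠ ψ ∈ XL M (cz Q) θ Z 1, dd M (Cz (cz Q) a) θ ψ a *
      (starRingEnd ℂ) (dd M (Cz (cz Q) u) θ ψ u) = Nat.card D) ∧
    (u * a⁻¹ ∉ Z → ∑ᶠ ψ ∈ XL M (cz Q) θ Z 1, dd M (Cz (cz Q) a) θ ψ a *
      (starRingEnd ℂ) (dd M (Cz (cz Q) u) θ ψ u) = 0)

/-- **FIX3** (medium; from FXO3, FXC3, FZD3, BPL, DDT3, FRA3, FEQ; compare `Pool/Agent/helper28/FI/FIX.lean`). Fixed characters over `1_Z`. Proof: let `K = cz Q`. BPL for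
`A = XL M K θ Z 1`, `B = D ⧸ (Z.subgroupOf D)`, `X ψ b = dd M (Cz K u) θ ψ u` for `u` in the coset `b` (independent of the choice: FZD3 with `ψ z = ψ 1`),
`σ ψ = cjF t ψ` (FRA3 (3) for `t`, `t⁻¹`; `t` commutes with `Z ≤ Y`), `τ (u Z) = t u t⁻¹ Z`, `n = |D| / |Z|`. `|A| = |D : Z|` by FXC3 (`Good` for `Q` from
`Lg3.good`). Orthogonality: FXO3. DDT3: `X (σ ψ) (τ b) = X ψ b`. Fixed points of `τ`: let `t u t⁻¹ = z u`, `z ∈ Z`. As `t` commutes with `z`,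
`t^n u t^(-n) = z^n u`; for `n = iI M D θ = (cz D).relIndex (TT M D θ)` `t^n ∈ cz D` (`cz D` is normal in `TT M D θ`), so `z^n = 1`, and `z` is a `p`-element, `p ∤ n` (`lo.bet`): `z = 1`.
By `lo.sfr` `u ∈ Y` (`t ∉ cz D`). Conversely `t` fixes the `u ∈ Y`. So the number is `|Y : Z| = Z.relIndex Y` (`Z ≤ Y ≤ D`). -/
def FIX3_stmt : Prop :=
  ∀ (p : ℕ) (M : Ideal (integralClosure ℤ ℂ)), Setup p M → ∀ (G : Type) [Group G] [Finite G]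
    (D : Subgroup G) (x : G) (θ χ : G → ℂ), Lg3 p M D x θ χ → ∀ Q ≤ D, ¬ Q ≤ YY M D θ → ∀ Z ≤ Q,
    Z ≤ YY M D θ → ∀ t ∈ TT M D θ, t ∈ nz Q → t ∉ cz D →
    {ψ : G → ℂ | ψ ∈ XL M (cz Q) θ Z 1 ∧ cjF t ψ = ψ}.ncard = Z.relIndex (YY M D θ)

/-- **FSQ3** (medium; from FIX3, FXC3, FCP3, FRA3; compare `Pool/Agent/helper68/FI/FSQ.lean`). Sum of the squares of the stabilisers. Proof: let `T₀ = TT M D θ ⊓ N`,
`A = XL M (cz Q) θ Z 1`. (1) Not `Q ≤ Y`: `TT M D θ ⊓ cz Q = cz D` (FRA3 (1)), so the claim is `∑_{ψ ∈ A} r_ψ² = fZ M D θ Z T₀`, `r_ψ = (cz D).relIndex (stF T₀ ψ)` (FCP3 (2)).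
`|A| = |D : Z|` (FXC3). If `T₀ = cz D` all `r_ψ = 1`: the sum is `|D : Z| = (|D : Z| - |Y : Z|) + |Y : Z|`. Otherwise take `s ∈ T₀` from `CyS (cz D) T₀` (FCP3 (2); `A` is
not empty): `s ∉ cz D`. Let `F` be the set of the `ψ ∈ A` fixed by `s`: `|F| = |Y : Z|` (FIX3). Every `t ∈ T₀` is a power of `s` up to `cz D`, and `cz D ≤ cz Q` fixes all `ψ`, so the
`ψ ∈ F` are fixed by `T₀`: `r_ψ = (cz D).relIndex T₀`. If `ψ ∈ A` is fixed by some `t ∈ T₀`, `t ∉ cz D`, then `ψ ∈ F`, because the set of the fixed points of `t` contains `F`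
and has `|Y : Z| = |F|` elements (FIX3); so `r_ψ = 1` for `ψ ∉ F`. The sum is `|F| ((cz D).relIndex T₀)² + (|A| - |F|)`. (2) `Q ≤ Y`: `TT M D θ ≤ cz Q ≤ N` (FRA3 (1)), so `TT M D θ ⊓ cz Q = T₀ =
TT M D θ`, all terms of the sum are `1` (FCP3 (1)), and `|TT| = |cz D| * iI`: the claim is `iI * |A| = fZ M D θ Z (TT M D θ)`, this is `Sg.num` for `cz Q`
(`Z ≤ Zc D (cz Q)`, because `Z ≤ Q ≤ D`). -/
def FSQ3_stmt : Prop :=
  ∀ (p : ℕ) (M : Ideal (integralClosure ℤ ℂ)), Setup p M → ∀ (G : Type) [Group G] [Finite G]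
    (D : Subgroup G) (x : G) (θ χ : G → ℂ), Lg3 p M D x θ χ → ∀ Q ≤ D, ∀ Z ≤ Q, Z ≤ YY M D θ →
    (Q ≤ YY M D θ → Sg p M D (cz Q) θ) → ∀ N : Subgroup G, cz Q ≤ N → N ≤ nz Q →
    Nat.card ↥(TT M D θ ⊓ cz Q) * ∑ᶠ ψ ∈ XL M (cz Q) θ Z 1, ((cz Q).relIndex (stF N ψ)) ^ 2 =
      Nat.card (cz D) * fZ M D θ Z (TT M D θ ⊓ N)

/-! ## 5. The sum over the chains -/

/-- **FCQ3** (short-medium; from CNQ3, FCP3, HTZ3, FZC3, FEQ; port of FCQ, `Pool/Agent/helper68/FI/FCQ.lean`). Proof: `L = cz P`, `Z = Zc D L < Q`. CNQ3 gives `l ∈ L` with `Q' = cjS l Q ≤ D`,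
`ψ = cjF l η ∈ Bl M (cz Q') θ`; `Z = cjS l Z < Q'` (FZC3). If `Q' ≤ Y`: `stF (cjS l N) ψ = cz Q'` (FCP3 (1)): `CyS`, index `1`, and the defect is `Sg.ht` for `cz Q'`. Otherwise
FCP3 (2) and HTZ3 (`Lg3.good`). Transport back by FEQ. -/
def FCQ3_stmt : Prop :=
  ∀ (p : ℕ) (M : Ideal (integralClosure ℤ ℂ)), Setup p M → ∀ (G : Type) [Group G] [Finite G]
    (D : Subgroup G) (x : G) (θ χ : G → ℂ), Lg3 p M D x θ χ → ∀ P ≤ YY M D θ,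
    (∀ R ≤ YY M D θ, Zc D (cz P) < R → Sg p M D (cz R) θ) → ∀ Q : Subgroup G, IsPGroup p Q →
    Zc D (cz P) < Q → ∀ N : Subgroup G, cz Q ≤ N → N ≤ nz Q → ∀ η ∈ IrrOn (cz Q), SB M (cz P) η θ →
    CyS (cz Q) (stF N η) ∧ ¬ p ∣ (cz Q).relIndex (stF N η) ∧
    ∀ a : ℕ, Nat.card D = p ^ a → Defect p (cz Q) η a

/-- **FNC3** (medium; from FMX3, F123, FCQ3, FNG3, FSQ3, FZC3, FKE3, FEQ, FSI; compare `Pool/Agent/helper18/FI/FNC.lean`). One chain. Proof: let `L = cz P`, `Z = Zc D L`,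
`T = TT M D θ`, `N = L ⊓ nrm C`, `Q` from FMX3, `K = cz Q ≤ N ≤ nz Q` (`cz Q ≤ L` by FZC3). By F123 (FCQ3) `|N| * |BZ N| = |K| * ∑_{η ∈ BZ K} s_η²`, `s_η = K.relIndex (stF N η)`, and the
defects are `a`. Multiply by `|T|` and use FNG3: `|T| |K| s_η² = ∑_{g ∈ A_η} |T ⊓ cz (cjS g Q)| s_η²`, `A_η` the set of FNG3. Exchange the sums: for given `g ∈ L` with `cjS g Q ≤ D`
(equivalently `cjS g R ≤ D` for all `R ∈ C`) the `η ∈ BZ M L θ Z K` with `g ∈ A_η` correspond by `η ↦ cjF g η` to the elements of `XL M (cz Q') θ Z 1`, `Q' = cjS g Q ≥ Z` (FEQ, FKE3: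
`g` commutes with `Z`; conversely for `ψ ∈ Bl M (cz Q') θ` `SB M L ψ θ` by FSI (1), and `cc (cjF g⁻¹ ψ) z = cc ψ z` for `CF L z`), and `s_η = (cz Q').relIndex (stF (cjS g N) (cjF g η))`. By
FSQ3 for `Q'`, `cjS g N` (`Sg` for `Q' ≤ Y`: `Z < Q'`) the inner sum times `|T ⊓ cz Q'|` is `|cz D| * fZ M D θ Z (T ⊓ cjS g N)`. -/
def FNC3_stmt : Prop :=
  ∀ (p : ℕ) (M : Ideal (integralClosure ℤ ℂ)), Setup p M → ∀ (G : Type) [Group G] [Finite G]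
    (D : Subgroup G) (x : G) (θ χ : G → ℂ), Lg3 p M D x θ χ → ∀ P ≤ YY M D θ,
    (∀ R ≤ YY M D θ, Zc D (cz P) < R → Sg p M D (cz R) θ) → ∀ C : Finset (Subgroup G),
    NCh p (cz P) (Zc D (cz P)) C → C ≠ {Zc D (cz P)} →
    Nat.card (TT M D θ) * (Nat.card ↥(cz P ⊓ nrm C) * (BZ M (cz P) θ (Zc D (cz P)) (cz P ⊓ nrm C)).ncard) =
      Nat.card (cz D) * ∑ᶠ g ∈ {g : G | g ∈ cz P ∧ ∀ R ∈ C, cjS g R ≤ D},
        fZ M D θ (Zc D (cz P)) (TT M D θ ⊓ cjS g (cz P ⊓ nrm C)) ∧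
    ∀ φ ∈ BZ M (cz P) θ (Zc D (cz P)) (cz P ⊓ nrm C), ∀ a : ℕ, Nat.card D = p ^ a →
      Defect p (cz P ⊓ nrm C) φ a

/-- **FFS3** (medium; from FNC3, FTG3, FZC3, NM, SN of DC; port of FFS, `Pool/Agent/helper57/FI/FFS.lean`). Proof: multiply by `|T|`, insert FNC3 and exchange the sums:
`|cz D| * ∑_{g ∈ L} ∑_C (-1)^(|C|+1) f (T ⊓ cjS g (L ⊓ nrm C))` over the normal chains `C ≠ {Z}` of `L` from `Z` with `cjS g R ≤ D` for all `R ∈ C`, `f U = fZ M D θ Z U`. For fixed `g ∈ L` the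
map `C ↦ chainMap (MulAut.conj g) C` is a bijection from these `C` onto the `C'` with `PCh p D Z C'`, `C' ≠ {Z}` (`cjS g Z = Z`, `D ≤ L`, `cjS g⁻¹ R ≤ L` for `R ≤ D`; chains of subgroups of
the abelian group `D` are normal), with the same number of terms and `nrm C' = cjS g (nrm C)` (NM), `cjS g L = L`, and `T ⊓ (L ⊓ nrm C') = T ⊓ nrm C'` (`T ≤ L`, FZC3). So the inner sum is
`- f T` (FTG3; `T ≤ nz Z` because `T` commutes with `Z ≤ Y`), and the total is `- |L| |cz D| f T`. -/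
def FFS3_stmt : Prop :=
  ∀ (p : ℕ) (M : Ideal (integralClosure ℤ ℂ)), Setup p M → ∀ (G : Type) [Group G] [Finite G]
    (D : Subgroup G) (x : G) (θ χ : G → ℂ), Lg3 p M D x θ χ → ∀ P ≤ YY M D θ,
    (∀ R ≤ YY M D θ, Zc D (cz P) < R → Sg p M D (cz R) θ) →
    (Nat.card (TT M D θ) : ℤ) * ∑ᶠ C ∈ {C : Finset (Subgroup G) | NCh p (cz P) (Zc D (cz P)) C ∧ C ≠ {Zc D (cz P)}},
      (-1) ^ (C.card + 1) * ((Nat.card ↥(cz P ⊓ nrm C) : ℤ) *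
        (BZ M (cz P) θ (Zc D (cz P)) (cz P ⊓ nrm C)).ncard) =
    - ((Nat.card (cz P) : ℤ) * Nat.card (cz D) * fZ M D θ (Zc D (cz P)) (TT M D θ))

/-- **FFF3** (short-medium; from FFS3, FNC3, FZC3, FKE3). OUTPUT. Proof: split off the chain `{Z}` (`NCh p L Z {Z}`; sign `+1`, `L ⊓ nrm {Z} = L ⊓ nz Z = L`, and
`BZ M L θ Z L = XL M L θ Z 1` by FKE3). `|T| = |cz D| * iI` (FZC3): cancel `|cz D|` in FFS3. -/
def FFF3_stmt : Prop :=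
  ∀ (p : ℕ) (M : Ideal (integralClosure ℤ ℂ)), Setup p M → ∀ (G : Type) [Group G] [Finite G]
    (D : Subgroup G) (x : G) (θ χ : G → ℂ), Lg3 p M D x θ χ → ∀ P ≤ YY M D θ,
    (∀ R ≤ YY M D θ, Zc D (cz P) < R → Sg p M D (cz R) θ) →
    (iI M D θ : ℤ) * ∑ᶠ C ∈ {C : Finset (Subgroup G) | NCh p (cz P) (Zc D (cz P)) C},
      (-1) ^ (C.card + 1) * ((Nat.card ↥(cz P ⊓ nrm C) : ℤ) *
        (BZ M (cz P) θ (Zc D (cz P)) (cz P ⊓ nrm C)).ncard) =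
    (Nat.card (cz P) : ℤ) * ((iI M D θ : ℤ) * (XL M (cz P) θ (Zc D (cz P)) 1).ncard -
      fZ M D θ (Zc D (cz P)) (TT M D θ))

/-- **FBB3** (short-medium; from IF, IM, OM, TI of DC, C3, C1 of DI). Blocks of `G`. Proof: (→) `omega φ g = cc φ z` for the indicator function `z` of `conjugatesOf g`
(`CF ⊤ z`, integral values), the same for `θ` (FSI (2) is this statement for `L = ⊤`). (←) `z` a class function of `G` with integral values is the sum over the classes of `z g` times the indicator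
functions, `cc` is linear, and `Mcong M (omega φ g) (omega θ g)` for all `g` (both `Induces`, IM of DC), multiplied by integral numbers `z g`. -/
def FBB3_stmt : Prop :=
  ∀ (p : ℕ) (M : Ideal (integralClosure ℤ ℂ)), Setup p M → ∀ (G : Type) [Group G] [Finite G]
    (θ χ : G → ℂ) (H N : Subgroup G), χ ∈ Irr G → θ ∈ IrrOn H → Induces M θ χ → ∀ φ ∈ IrrOn N,
    (SB M ⊤ φ θ ↔ Induces M φ χ)

open Classical in
/-- **FFD3** (medium; from FT0, FFS3, FNC3, FBB3, FZC3; port of FFF, `Pool/Agent/helper31/FI/FFF.lean`). OUTPUT for `O_p(G) = 1`. Proof: `P = ⊥`: `cz ⊥ = ⊤`. `Z = Zc D ⊤` is a central `p`-subgroup of `G`, so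
`Z = ⊥` (`IsOp p ⊤ ⊥`). By FBB3 `BZ M ⊤ θ ⊥ N = Blk M χ N` (`φ (1 * x) = φ x`). In FT0 split off the chain `{⊥}`: it gives `|G| * (BlkD p M χ ⊤ d).ncard`. For `C ≠ {⊥}`: if `d = a` then
`BlkD p M χ (nrm C) d = Blk M χ (nrm C)` (FNC3, last item; `⊤ ⊓ nrm C = nrm C`), otherwise `BlkD` is empty (`Defect` has only one `d`). Insert FFS3, `|T| = |cz D| * iI`, cancel `|G| |cz D|`. -/
def FFD3_stmt : Prop :=
  ∀ (p : ℕ) (M : Ideal (integralClosure ℤ ℂ)), Setup p M → ∀ (G : Type) [Group G] [Finite G]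
    (D : Subgroup G) (x : G) (θ χ : G → ℂ), Lg3 p M D x θ χ → IsOp p (⊤ : Subgroup G) ⊥ →
    (∀ R ≤ YY M D θ, R ≠ ⊥ → Sg p M D (cz R) θ) →
    ∀ a : ℕ, Nat.card D = p ^ a → ∀ d : ℤ,
    (iI M D θ : ℤ) * altSum (trivE G) p M χ d ⊤ =
      (iI M D θ : ℤ) * (BlkD p M χ ⊤ d).ncard - (if d = a then (fZ M D θ ⊥ (TT M D θ) : ℤ) else 0)

end Pool.Agent.FI3F
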