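import Pool.Agent.helper58.FI3F.SpecF3

set_option autoImplicit false

namespace Pool.Agent.FI3F

open Pool.Agent.helper58.DC Pool.Agent.DI Pool.Agent.GR Pool.Agent.OB Pool.Agent.DR Pool.Agent.FI Pool.Agent.FI3

theorem FCQ3_cys {G : Type} [Group G] (g : G) (K S : Subgroup G) (h : CyS (cjS g K) (cjS g S)) : CyS K S := by
  obtain ⟨s', ⟨s, hs, rfl⟩, h2⟩ := h
  refine ⟨s, hs, fun x hx => ?_⟩
  obtain ⟨k, hk⟩ := h2 (g * x * g⁻¹) ⟨x, hx, rfl⟩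
  refine ⟨k, ?_⟩
  rw [mem_cjS] at hk
  have h3 : g⁻¹ * (((MulAut.conj g).toMonoidHom s) ^ k * (g * x * g⁻¹)) * g = s ^ k * x := by
    have h4 : ((MulAut.conj g).toMonoidHom s) ^ k = g * s ^ k * g⁻¹ := by
      rw [← map_zpow]
      rfl
    rw [h4]
    group
  rw [h3] at hk
  exact hk

theorem FCQ3 (hCNQ3 : CNQ3_stmt) (hFCP3 : FCP3_stmt) (hHTZ3 : HTZ3_stmt) (hFZC3 : FZC3_stmt)
    (hFEQ : FEQ_stmt) : FCQ3_stmt := by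
  intro p M hS G _ _ D x θ χ hL P hP hSg Q hQp hZQ N hN1 hN2 η hη hSBη
  obtain ⟨⟨c1, c2, c3, c4, c5, c6, c7, c8, c9⟩, c10, c11, c12, c13, c14, c15⟩ :=
    hFZC3 p M hS G D x θ χ hL.lo P hP
  obtain ⟨g, hgL, hg, hSB⟩ := hCNQ3 p M hS G D x θ χ hL.lo P (hP.trans c9) Q hQp (c1.trans hZQ.le) η hη hSBη
  have hcz : cz (cjS g Q) = cjS g (cz Q) := (hFEQ G M g 1 Q Q Q θ θ θ).2.1.1
  have hnz : nz (cjS g Q) = cjS g (nz Q) := (hFEQ G M g 1 Q Q Q θ θ θ).2.1.2.1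
  have hZ' : Zc D (cz P) < cjS g Q := by
    have h1 : cjS g (Zc D (cz P)) = Zc D (cz P) := (c10 g hgL).2.1
    refine lt_of_le_of_ne ?_ ?_
    · rw [← h1]
      exact (hFEQ G M g 1 (Zc D (cz P)) Q Q θ θ θ).2.1.2.2.1.2 hZQ.le
    · intro h2
      refine absurd hZQ (not_lt_of_ge ?_)
      have h3 : cjS g Q ≤ cjS g (Zc D (cz P)) := by
        rw [h1, ← h2]
      exact (hFEQ G M g 1 Q (Zc D (cz P)) Q θ θ θ).2.1.2.2.1.1 h3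
  have hN1' : cz (cjS g Q) ≤ cjS g N := by
    rw [hcz]
    exact (hFEQ G M g 1 (cz Q) N Q θ θ θ).2.1.2.2.1.2 hN1
  have hN2' : cjS g N ≤ nz (cjS g Q) := by
    rw [hnz]
    exact (hFEQ G M g 1 N (nz Q) Q θ θ θ).2.1.2.2.1.2 hN2
  have hψ' : cjF g η ∈ Bl M (cz (cjS g Q)) θ := by
    refine ⟨?_, hSB.symm⟩
    rw [hcz]
    exact (hFEQ G M g 1 Q Q (cz Q) θ η θ).2.2.2.1.1 hη
  have hst : stF (cjS g N) (cjF g η) = cjS g (stF N η) := (hFEQ G M g 1 Q Q N θ η θ).2.2.2.2.2.2.2.1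
  obtain ⟨e1, e2⟩ := hFCP3 p M hS G D x θ χ hL.lo (cjS g Q) hg (cjS g N) hN1' hN2' (cjF g η) hψ'
  have key : CyS (cz (cjS g Q)) (stF (cjS g N) (cjF g η)) ∧
      ¬ p ∣ (cz (cjS g Q)).relIndex (stF (cjS g N) (cjF g η)) ∧
      ∀ a : ℕ, Nat.card D = p ^ a → Defect p (cz (cjS g Q)) (cjF g η) a := by
    by_cases hY : cjS g Q ≤ YY M D θ
    · rw [e1 hY]
      refine ⟨⟨1, (cz (cjS g Q)).one_mem, fun y hy => ⟨0, by simpa using hy⟩⟩, ?_, fun a ha => ?_⟩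
      · rw [Subgroup.relIndex_self]
        intro h
        exact hS.1.one_lt.ne' (Nat.dvd_one.1 h)
      · exact (hSg (cjS g Q) hY hZ').ht (cjF g η) hψ' a ha
    · obtain ⟨h1, h2, -, -⟩ := e2 hY
      exact ⟨h1, h2, fun a ha => hHTZ3 p M hS G D x θ χ hL.lo (cjS g Q) hg (hL.good _ hg hY) (cjF g η) hψ' a ha⟩
  obtain ⟨h1, h2, h3⟩ := key
  rw [hcz, hst] at h1 h2
  refine ⟨FCQ3_cys g _ _ h1, ?_, ?_⟩
  · rw [(hFEQ G M g 1 (cz Q) (stF N η) Q θ θ θ).2.2.2.2.2.2.2.2] at h2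
    exact h2
  · intro a ha
    obtain ⟨n, hn1, hn2⟩ := h3 a ha
    refine ⟨n, ?_, ?_⟩
    · rw [← hn1, cjF_apply]
      congr 1
      group
    · rw [hn2, hcz, (hFEQ G M g 1 (cz Q) Q Q θ θ θ).2.1.2.2.2.2.2]

end Pool.Agent.FI3F
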