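import Pool.Agent.helper58.FI3F.SpecF3

set_option autoImplicit false

namespace Pool.Agent.FI3F

open Pool.Agent.helper58.DC Pool.Agent.DI Pool.Agent.GR Pool.Agent.OB Pool.Agent.DR Pool.Agent.FI Pool.Agent.FI3

theorem FFD3_nch {G : Type} [Group G] (p : ℕ) : NCh p (⊤ : Subgroup G) ⊥ {⊥} := by
  refine ⟨⟨?_, ?_, ?_, ?_, ?_⟩, ?_⟩
  · rw [Finset.coe_singleton]
    exact Set.subsingleton_singleton.isChain
  · exact Finset.mem_singleton_self _
  · intro Q _
    exact bot_le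
  · intro Q _
    exact le_top
  · intro Q hQ
    rw [Finset.mem_singleton.1 hQ]
    exact IsPGroup.of_bot
  · intro Q _ R hR _
    rw [Finset.mem_singleton.1 hR]
    exact bot_le

theorem FFD3_nrm {G : Type} [Group G] : nrm ({⊥} : Finset (Subgroup G)) = ⊤ := by
  rw [eq_top_iff]
  intro g _
  unfold nrm
  simp only [Finset.mem_singleton, Subgroup.mem_iInf]
  rintro P rfl
  rw [Subgroup.mem_normalizer_iff]
  intro h
  simp [Subgroup.mem_bot]

theorem FFD3_defect {G : Type} [Group G] {p : ℕ} {H : Subgroup G} {ψ : G → ℂ} {d e : ℤ}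
    (h : Defect p H ψ d) (h' : Defect p H ψ e) : d = e := by
  obtain ⟨n, hn, rfl⟩ := h
  obtain ⟨m, hm, rfl⟩ := h'
  have : n = m := by
    have h1 : (n : ℂ) = m := by rw [← hn, ← hm]
    exact_mod_cast h1
  rw [this]

theorem FFD3_cz {G : Type} [Group G] : cz (⊥ : Subgroup G) = ⊤ := by
  rw [eq_top_iff]
  intro g _
  unfold cz
  rw [Subgroup.mem_centralizer_iff]
  intro h hh
  have : h = 1 := Subgroup.mem_bot.1 hh
  rw [this, one_mul, mul_one]

theorem FFD3 (hFT0 : FT0_stmt) (hFFS3 : FFS3_stmt) (hFNC3 : FNC3_stmt) (hFBB3 : FBB3_stmt)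
    (hFZC3 : FZC3_stmt) : FFD3_stmt := by
  intro p M hS G _ _ D x θ χ hL hop hsg a ha d
  have hpf : Fact p.Prime := ⟨hS.pr⟩
  obtain ⟨⟨-, -, -, -, -, -, -, hZp, -⟩, hZc, -, -, -, -, hT0⟩ := hFZC3 p M hS G D x θ χ hL.lo ⊥ bot_le
  have hFS := hFFS3 p M hS G D x θ χ hL ⊥ bot_le
  have hFN := hFNC3 p M hS G D x θ χ hL ⊥ bot_le
  rw [FFD3_cz] at hZp hZc hFS hFN
  have hZ : Zc D (⊤ : Subgroup G) = ⊥ := by
    rw [eq_bot_iff]
    refine hop.2 ⟨le_top, hZp, fun g _ => ?_⟩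
    rw [Subgroup.mem_normalizer_iff]
    intro h
    constructor
    · intro hh
      have h1 := (hZc g (Subgroup.mem_top g)).1 h hh
      have h2 : g * h * g⁻¹ = h := by rw [h1]; group
      rw [h2]
      exact hh
    · intro hh
      have h1 := (hZc g⁻¹ (Subgroup.mem_top _)).1 _ hh
      have h2 : g * h * g⁻¹ = h := by
        have h3 : g⁻¹ * (g * h * g⁻¹) = h * g⁻¹ := by group
        rw [h3] at h1
        exact (mul_right_cancel h1).symm
      rw [h2] at hh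
      exact hh
  rw [hZ] at hFS hFN
  have hsg' : ∀ R ≤ YY M D θ, ⊥ < R → Sg p M D (cz R) θ := fun R hR h => hsg R hR h.ne'
  replace hFS := hFS hsg'
  replace hFN := hFN hsg'
  have hBZ : ∀ N : Subgroup G, BZ M ⊤ θ ⊥ N = Blk M χ N := by
    intro N
    ext φ
    constructor
    · rintro ⟨h1, h2, -⟩
      exact ⟨h1, (hFBB3 p M hS G θ χ (cz D) N hL.lo.rt.chi hL.lo.rt.th hL.lo.rt.ind φ h1).1 h2⟩
    · rintro ⟨h1, h2⟩
      exact ⟨h1, (hFBB3 p M hS G θ χ (cz D) N hL.lo.rt.chi hL.lo.rt.th hL.lo.rt.ind φ h1).2 h2,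
        fun z hz x => by rw [Subgroup.mem_bot.1 hz, one_mul]⟩
  simp only [top_inf_eq, hBZ] at hFS hFN
  have h0 := hFT0 G p M hop χ hL.lo.rt.chi d
  have hset : {C : Finset (Subgroup G) | NCh p ⊤ ⊥ C} =
      insert {⊥} {C : Finset (Subgroup G) | NCh p ⊤ ⊥ C ∧ C ≠ {⊥}} := by
    ext C
    simp only [Set.mem_insert_iff, Set.mem_ofPred_eq]
    constructor
    · intro h
      by_cases e : C = {⊥}
      · exact Or.inl e
      · exact Or.inr ⟨h, e⟩
    · rintro (rfl | h)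
      · exact FFD3_nch p
      · exact h.1
  have hnm : ({⊥} : Finset (Subgroup G)) ∉ {C : Finset (Subgroup G) | NCh p ⊤ ⊥ C ∧ C ≠ {⊥}} :=
    fun h => h.2 rfl
  rw [hset, finsum_mem_insert _ hnm (Set.toFinite _), FFD3_nrm, Finset.card_singleton] at h0
  have hT : (Nat.card (TT M D θ) : ℤ) = (Nat.card (cz D) : ℤ) * (iI M D θ : ℤ) := by
    rw [hT0]
    push_cast
    ring
  have hG0 : (Nat.card G : ℤ) ≠ 0 := by exact_mod_cast Nat.card_pos.ne'
  have hc0 : (Nat.card (cz D) : ℤ) ≠ 0 := by exact_mod_cast Nat.card_pos.ne'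
  have hGt : (Nat.card (⊤ : Subgroup G) : ℤ) = Nat.card G := by
    rw [Subgroup.card_top]
  rw [hGt] at h0 hFS
  have key : ∀ S' : ℤ, (Nat.card (TT M D θ) : ℤ) *
      (∑ᶠ C ∈ {C : Finset (Subgroup G) | NCh p ⊤ ⊥ C ∧ C ≠ {⊥}},
        (-1) ^ (C.card + 1) * ((Nat.card (nrm C) : ℤ) * (BlkD p M χ (nrm C) d).ncard)) =
        - ((Nat.card G : ℤ) * Nat.card (cz D) * S') →
      (iI M D θ : ℤ) * altSum (trivE G) p M χ d ⊤ =
      (iI M D θ : ℤ) * (BlkD p M χ ⊤ d).ncard - S' := by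
    intro S' hS'
    have h1 : (Nat.card (TT M D θ) : ℤ) * ((Nat.card G : ℤ) * altSum (trivE G) p M χ d ⊤) =
        (Nat.card (TT M D θ) : ℤ) * ((Nat.card G : ℤ) * (BlkD p M χ ⊤ d).ncard) -
          ((Nat.card G : ℤ) * Nat.card (cz D) * S') := by
      rw [h0, mul_add, hS']
      ring
    rw [hT] at h1
    have h2 : ((Nat.card (cz D) : ℤ) * (Nat.card G : ℤ)) *
        ((iI M D θ : ℤ) * altSum (trivE G) p M χ d ⊤) =
        ((Nat.card (cz D) : ℤ) * (Nat.card G : ℤ)) *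
        ((iI M D θ : ℤ) * (BlkD p M χ ⊤ d).ncard - S') := by
      linear_combination h1
    exact mul_left_cancel₀ (mul_ne_zero hc0 hG0) h2
  by_cases hda : d = (a : ℤ)
  · rw [if_pos hda]
    apply key
    rw [← hFS]
    congr 1
    refine finsum_mem_congr rfl fun C hC => ?_
    have h1 : BlkD p M χ (nrm C) d = Blk M χ (nrm C) := by
      ext φ
      constructor
      · intro h
        exact h.1
      · intro h
        refine ⟨h, ?_⟩
        rw [hda]
        exact (hFN C hC.1 hC.2).2 φ h a ha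
    rw [h1]
  · rw [if_neg hda]
    apply key
    rw [mul_zero, neg_zero]
    have h1 : (∑ᶠ C ∈ {C : Finset (Subgroup G) | NCh p ⊤ ⊥ C ∧ C ≠ {⊥}},
        (-1 : ℤ) ^ (C.card + 1) * ((Nat.card (nrm C) : ℤ) * (BlkD p M χ (nrm C) d).ncard)) = 0 := by
      refine finsum_mem_eq_zero_of_forall_eq_zero fun C hC => ?_
      have h2 : BlkD p M χ (nrm C) d = ∅ := by
        rw [Set.eq_empty_iff_forall_notMem]
        rintro φ ⟨h3, h4⟩
        exact hda (FFD3_defect h4 ((hFN C hC.1 hC.2).2 φ h3 a ha))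
      rw [h2, Set.ncard_empty]
      simp
    rw [h1, mul_zero]

end Pool.Agent.FI3F
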