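import Pool.Agent.helper58.FI3F.SpecF3

set_option autoImplicit false

namespace Pool.Agent.FI3F

open Pool.Agent.helper58.DC Pool.Agent.DI Pool.Agent.GR Pool.Agent.OB Pool.Agent.DR Pool.Agent.FI Pool.Agent.FI3

theorem FIX3_mem {G : Type} [Group G] {M : Ideal (integralClosure ℤ ℂ)} {L Z : Subgroup G} {θ ψ : G → ℂ} :
    ψ ∈ XL M L θ Z 1 ↔ ψ ∈ Bl M L θ ∧ ∀ z ∈ Z, ψ z = ψ 1 := by
  constructor
  · rintro ⟨h1, h2⟩
    refine ⟨h1, fun z hz => ?_⟩
    have h3 := h2 ⟨z, hz⟩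
    rw [MonoidHom.one_apply, Units.val_one, one_mul] at h3
    exact h3
  · rintro ⟨h1, h2⟩
    refine ⟨h1, fun z => ?_⟩
    rw [MonoidHom.one_apply, Units.val_one, one_mul]
    exact h2 z z.2

/-- an element which moves `u` inside the coset `u Z` centralises `u` -/
theorem FIX3_fix {G : Type} [Group G] {p : ℕ} (hp : p.Prime) {D T C : Subgroup G}
    (hD : IsPGroup p D) (hCn : ∀ s ∈ T, ∀ c ∈ C, s * c * s⁻¹ ∈ C)
    (hCD : ∀ c ∈ C, ∀ d ∈ D, c * d = d * c) (hpT : ¬ p ∣ C.relIndex T) {t u z : G} (ht : t ∈ T)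
    (hu : u ∈ D) (hz : z ∈ D) (htz : t * z = z * t) (h : t * u * t⁻¹ = u * z) : t * u = u * t := by
  have h1 : ∀ k : ℕ, t ^ k * u * (t ^ k)⁻¹ = u * z ^ k := by
    intro k
    induction k with
    | zero => simp
    | succ k ih =>
      have h2 : t ^ (k + 1) * u * (t ^ (k + 1))⁻¹ = t * (t ^ k * u * (t ^ k)⁻¹) * t⁻¹ := by
        rw [pow_succ']
        group
      have h3 : t * z ^ k = z ^ k * t := ((show Commute t z from htz).pow_right k).eq
      have h4 : t * (u * z ^ k) * t⁻¹ = (t * u * t⁻¹) * (t * z ^ k * t⁻¹) := by group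
      rw [h2, ih, h4, h, h3, mul_inv_cancel_right, mul_assoc, ← pow_succ']
  have hN : (C.subgroupOf T).Normal := by
    refine ⟨fun c hc s => ?_⟩
    rw [Subgroup.mem_subgroupOf] at hc ⊢
    exact hCn s s.2 c hc
  have h2 : t ^ C.relIndex T ∈ C := by
    have h3 := (C.subgroupOf T).pow_index_mem (⟨t, ht⟩ : T)
    rw [Subgroup.mem_subgroupOf] at h3
    exact h3
  have h3 := h1 (C.relIndex T)
  rw [hCD _ h2 u hu, mul_inv_cancel_right] at h3
  have h4 : z ^ C.relIndex T = 1 := (mul_eq_left (a := u)).1 h3.symm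
  have h5 : z = 1 := by
    obtain ⟨k, hk⟩ := hD ⟨z, hz⟩
    have hk' : z ^ p ^ k = 1 := congrArg Subtype.val hk
    have h6 : Nat.Coprime (C.relIndex T) (p ^ k) :=
      Nat.Coprime.pow_right _ ((Nat.Prime.coprime_iff_not_dvd hp).2 hpT).symm
    have h7 : orderOf z ∣ 1 := by
      rw [← h6]
      exact Nat.dvd_gcd (orderOf_dvd_of_pow_eq_one h4) (orderOf_dvd_of_pow_eq_one hk')
    exact orderOf_eq_one_iff.1 (Nat.dvd_one.1 h7)
  rw [h5, mul_one, mul_inv_eq_iff_eq_mul] at h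
  exact h

theorem FIX3 (hFXO3 : FXO3_stmt) (hFXC3 : FXC3_stmt) (hFZD3 : FZD3_stmt) (hBPL : BPL_stmt) (hDDT3 : DDT3_stmt)
    (hFRA3 : FRA3_stmt) (hFEQ : FEQ_stmt) (hIF : IF_stmt) : FIX3_stmt := by
  classical
  intro p M hS G _ _ D x θ χ hL Q hQ hQY Z hZQ hZY t ht htn htc
  obtain ⟨⟨hF1, hF2, hDK, -, hF4⟩, -, hF3⟩ := hFRA3 p M hS G D x θ χ hL.lo Q hQ
  have hgP := hL.good Q hQ hQY
  have hZD : Z ≤ D := hZQ.trans hQ
  have hYD : YY M D θ ≤ D := inf_le_left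
  have hpD : IsPGroup p D := hL.lo.rt.dfa.pgrp
  have hcom := hL.lo.rt.com
  have hZK : Z ≤ cz Q := hZD.trans hDK
  have hZc : ∀ z ∈ Z, ∀ k ∈ cz Q, k * z = z * k := by
    intro z hz k hk
    have hk' : k ∈ Subgroup.centralizer (Q : Set G) := hk
    rw [Subgroup.mem_centralizer_iff] at hk'
    exact (hk' z (hZQ hz)).symm
  have htY : ∀ y ∈ YY M D θ, t * y = y * t := by
    intro y hy
    have h1 : y ∈ Subgroup.centralizer (TT M D θ : Set G) := hy.2
    rw [Subgroup.mem_centralizer_iff] at h1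
    exact h1 t ht
  have htD : t ∈ nz D := ht.1
  have hti : t⁻¹ ∈ TT M D θ := (TT M D θ).inv_mem ht
  have htni : t⁻¹ ∈ nz Q := (nz Q).inv_mem htn
  have hpos : ∀ ψ ∈ Bl M (cz Q) θ, ψ 1 ≠ 0 := by
    intro ψ hψ
    obtain ⟨n, hn, hn'⟩ := ((hIF G (cz Q)).2 ψ hψ.1).1
    rw [hn']
    exact Nat.cast_ne_zero.2 hn.ne'
  have hZpos : 0 < Nat.card Z := Nat.card_pos
  have hXC := hFXC3 p M hS G D (cz Q) Z θ (hpD.to_le hZD) hZK hZc hgP
  have hfin : (XL M (cz Q) θ Z 1).Finite := by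
    apply Set.finite_of_ncard_pos
    by_contra h0
    have h1 : (XL M (cz Q) θ Z 1).ncard = 0 := by omega
    rw [h1, zero_mul] at hXC
    have h2 : 0 < Nat.card D := Nat.card_pos
    omega
  have : Finite (XL M (cz Q) θ Z 1) := hfin
  let _ : Fintype (XL M (cz Q) θ Z 1) := Fintype.ofFinite _
  let _ : Fintype (D ⧸ Z.subgroupOf D) := Fintype.ofFinite _
  have hcomp : ∀ (g h : G) (ψ : G → ℂ), cjF g (cjF h ψ) = cjF (g * h) ψ :=
    fun g h ψ => (hFEQ G M g h Q Q Q ψ ψ ψ).1.2.1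
  have hone : ∀ (ψ : G → ℂ), cjF (1 : G) ψ = ψ := fun ψ => (hFEQ G M 1 1 Q Q Q ψ ψ ψ).1.2.2.2
  -- the action on the characters
  have hact : ∀ s ∈ TT M D θ, s ∈ nz Q → ∀ ψ ∈ XL M (cz Q) θ Z 1, cjF s ψ ∈ XL M (cz Q) θ Z 1 := by
    intro s hs hsn ψ hψ
    rw [FIX3_mem] at hψ ⊢
    refine ⟨hF3 s hs hsn ψ hψ.1, fun z hz => ?_⟩
    have h1 : z ∈ Subgroup.centralizer (TT M D θ : Set G) := (hZY hz).2
    rw [Subgroup.mem_centralizer_iff] at h1
    have h2 := h1 s hs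
    rw [cjF_apply, cjF_apply]
    have h3 : s⁻¹ * z * s = z := by
      rw [mul_assoc, ← h2, inv_mul_cancel_left]
    have h4 : s⁻¹ * 1 * s = 1 := by group
    rw [h3, h4]
    exact hψ.2 z hz
  let σ : Equiv.Perm (XL M (cz Q) θ Z 1) :=
    { toFun := fun ψ => ⟨cjF t ψ.1, hact t ht htn ψ.1 ψ.2⟩
      invFun := fun ψ => ⟨cjF t⁻¹ ψ.1, hact t⁻¹ hti htni ψ.1 ψ.2⟩
      left_inv := by
        intro ψ
        apply Subtype.ext
        change cjF t⁻¹ (cjF t ψ.1) = ψ.1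
        rw [hcomp, inv_mul_cancel, hone]
      right_inv := by
        intro ψ
        apply Subtype.ext
        change cjF t (cjF t⁻¹ ψ.1) = ψ.1
        rw [hcomp, mul_inv_cancel, hone] }
  have hmem : ∀ g ∈ nz D, ∀ u ∈ D, g * u * g⁻¹ ∈ D := fun g hg u hu => (Subgroup.mem_normalizer_iff.1 hg u).1 hu
  let φ : Equiv.Perm D :=
    { toFun := fun u => ⟨t * u.1 * t⁻¹, hmem t htD u.1 u.2⟩
      invFun := fun u => ⟨t⁻¹ * u.1 * t⁻¹⁻¹, hmem t⁻¹ ((nz D).inv_mem htD) u.1 u.2⟩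
      left_inv := by
        intro u
        apply Subtype.ext
        change t⁻¹ * (t * u.1 * t⁻¹) * t⁻¹⁻¹ = u.1
        group
      right_inv := by
        intro u
        apply Subtype.ext
        change t * (t⁻¹ * u.1 * t⁻¹⁻¹) * t⁻¹ = u.1
        group }
  have hrel : ∀ a b : D, (QuotientGroup.leftRel (Z.subgroupOf D)) a b ↔ a.1⁻¹ * b.1 ∈ Z := by
    intro a b
    rw [QuotientGroup.leftRel_apply, Subgroup.mem_subgroupOf]
    rfl
  have hmk : ∀ a b : D, ((a : D ⧸ Z.subgroupOf D) = (b : D ⧸ Z.subgroupOf D)) ↔ a.1⁻¹ * b.1 ∈ Z := by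
    intro a b
    rw [QuotientGroup.eq, Subgroup.mem_subgroupOf]
    rfl
  let τ : Equiv.Perm (D ⧸ Z.subgroupOf D) := Quotient.congr φ (by
    intro a b
    rw [hrel, hrel]
    change a.1⁻¹ * b.1 ∈ Z ↔ (t * a.1 * t⁻¹)⁻¹ * (t * b.1 * t⁻¹) ∈ Z
    have h1 : (t * a.1 * t⁻¹)⁻¹ * (t * b.1 * t⁻¹) = t * (a.1⁻¹ * b.1) * t⁻¹ := by group
    rw [h1]
    constructor
    · intro h
      rw [htY _ (hZY h), mul_inv_cancel_right]
      exact h
    · intro h
      have h2 := htY _ (hZY h)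
      have h3 : a.1⁻¹ * b.1 = t⁻¹ * (t * (a.1⁻¹ * b.1) * t⁻¹ * t) := by group
      rw [h3, ← h2, inv_mul_cancel_left]
      exact h)
  have hτ : ∀ u : D, τ (u : D ⧸ Z.subgroupOf D) = ((φ u : D) : D ⧸ Z.subgroupOf D) := fun u => rfl
  -- the values
  have hXmk : ∀ ψ ∈ XL M (cz Q) θ Z 1, ∀ u : D,
      dd M (Cz (cz Q) ((u : D ⧸ Z.subgroupOf D).out : D).1) θ ψ ((u : D ⧸ Z.subgroupOf D).out : D).1 =
        dd M (Cz (cz Q) u.1) θ ψ u.1 := by
    intro ψ hψ u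
    obtain ⟨z, hz⟩ := QuotientGroup.mk_out_eq_mul (Z.subgroupOf D) u
    rw [FIX3_mem] at hψ
    have hzZ : (z : D).1 ∈ Z := z.2
    have h1 : ((u : D ⧸ Z.subgroupOf D).out : D).1 = (z : D).1 * u.1 := by
      rw [hz]
      change u.1 * (z : D).1 = _
      exact hcom _ u.2 _ (z : D).2
    have h2 := hFZD3 G M (cz Q) θ (z : D).1 (hZK hzZ) (hZc _ hzZ) u.1 (hDK u.2) ψ hψ.1.1
    rw [h1]
    rw [hψ.2 _ hzZ, mul_comm] at h2
    exact mul_left_cancel₀ (hpos ψ hψ.1) h2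
  have hnD : (Nat.card D : ℂ) ≠ 0 := Nat.cast_ne_zero.2 Nat.card_pos.ne'
  have hnZ : (Nat.card Z : ℂ) ≠ 0 := Nat.cast_ne_zero.2 Nat.card_pos.ne'
  have hcB : Nat.card (D ⧸ Z.subgroupOf D) * Nat.card Z = Nat.card D := by
    have h1 := Subgroup.card_eq_card_quotient_mul_card_subgroup (Z.subgroupOf D)
    have h2 : Nat.card (Z.subgroupOf D) = Nat.card Z := Nat.card_congr (Subgroup.subgroupOfEquivOfLe hZD).toEquiv
    rw [h2] at h1
    exact h1.symm
  have hcAB : Fintype.card (XL M (cz Q) θ Z 1) = Fintype.card (D ⧸ Z.subgroupOf D) := by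
    rw [← Nat.card_eq_fintype_card, ← Nat.card_eq_fintype_card]
    refine Nat.eq_of_mul_eq_mul_right hZpos ?_
    rw [hcB, ← hXC]
    rfl
  have key := hBPL (XL M (cz Q) θ Z 1) (D ⧸ Z.subgroupOf D)
    (fun ψ b => dd M (Cz (cz Q) (b.out : D).1) θ ψ.1 (b.out : D).1) σ τ
    ((Nat.card D : ℂ) / Nat.card Z) (div_ne_zero hnD hnZ) hcAB
    (by
      intro b b'
      obtain ⟨u, rfl⟩ := QuotientGroup.mk_surjective b
      obtain ⟨u', rfl⟩ := QuotientGroup.mk_surjective b'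
      have hsum : ∑ a : XL M (cz Q) θ Z 1,
          dd M (Cz (cz Q) ((u : D ⧸ Z.subgroupOf D).out : D).1) θ a.1 ((u : D ⧸ Z.subgroupOf D).out : D).1 *
            (starRingEnd ℂ) (dd M (Cz (cz Q) ((u' : D ⧸ Z.subgroupOf D).out : D).1) θ a.1
              ((u' : D ⧸ Z.subgroupOf D).out : D).1) =
          ∑ᶠ χ' ∈ XL M (cz Q) θ Z 1, dd M (Cz (cz Q) u.1) θ χ' u.1 *
            (starRingEnd ℂ) (dd M (Cz (cz Q) u'.1) θ χ' u'.1) := by
        rw [← finsum_set_coe_eq_finsum_mem (XL M (cz Q) θ Z 1), finsum_eq_sum_of_fintype]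
        refine Finset.sum_congr rfl fun a _ => ?_
        rw [hXmk a.1 a.2 u, hXmk a.1 a.2 u']
      have hX := hFXO3 p M hS G D x θ χ hL Q hQ hQY Z hZQ u.1 u.2 u'.1 u'.2
      rw [hsum]
      have hc : u.1⁻¹ * u'.1 = u'.1 * u.1⁻¹ := hcom _ (D.inv_mem u.2) _ u'.2
      by_cases hbb : (u : D ⧸ Z.subgroupOf D) = (u' : D ⧸ Z.subgroupOf D)
      · rw [if_pos hbb, eq_div_iff hnZ, mul_comm]
        refine hX.1 ?_
        rw [← hc]
        exact (hmk u u').1 hbb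
      · rw [if_neg hbb]
        refine hX.2 fun h => hbb ((hmk u u').2 ?_)
        rw [hc]
        exact h)
    (by
      intro a b
      obtain ⟨u, rfl⟩ := QuotientGroup.mk_surjective b
      rw [hτ]
      rw [hXmk _ (σ a).2 (φ u), hXmk _ a.2 u]
      exact hDDT3 p M hS G D x θ χ hL.lo Q hQ t ht htn u.1 u.2 a.1 a.2.1.1)
  -- the fixed cosets
  have hright : (Finset.univ.filter fun b : D ⧸ Z.subgroupOf D => τ b = b).card = Z.relIndex (YY M D θ) := by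
    have h1 : ((Finset.univ.filter fun b : D ⧸ Z.subgroupOf D => τ b = b : Finset _) : Set (D ⧸ Z.subgroupOf D)) =
        Set.range (Subgroup.quotientSubgroupOfEmbeddingOfLE Z hYD) := by
      ext b
      rw [Finset.mem_coe, Finset.mem_filter]
      obtain ⟨u, rfl⟩ := QuotientGroup.mk_surjective b
      constructor
      · rintro ⟨-, hb⟩
        rw [hτ, eq_comm, hmk] at hb
        have h2 : t * u.1 * t⁻¹ = u.1 * (u.1⁻¹ * (φ u).1) := by
          rw [mul_inv_cancel_left]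
          rfl
        have h3 := FIX3_fix (T := TT M D θ) (C := cz D) hS.pr hpD (fun s hs c hc => cz_conj hs.1 hc) (by
            intro c hc d hd
            have hc' : c ∈ Subgroup.centralizer (D : Set G) := hc
            rw [Subgroup.mem_centralizer_iff] at hc'
            exact (hc' d hd).symm) hL.lo.bet ht u.2 (hZD hb) (htY _ (hZY hb)) h2
        have h4 : u.1 ∈ YY M D θ := (hL.lo.sfr t ht u.1 u.2 h3).resolve_right htc
        refine ⟨((⟨u.1, h4⟩ : YY M D θ) : YY M D θ ⧸ Z.subgroupOf (YY M D θ)), ?_⟩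
        rw [Subgroup.quotientSubgroupOfEmbeddingOfLE_apply_mk]
        rfl
      · rintro ⟨y, hy⟩
        obtain ⟨y, rfl⟩ := QuotientGroup.mk_surjective y
        rw [Subgroup.quotientSubgroupOfEmbeddingOfLE_apply_mk] at hy
        refine ⟨Finset.mem_univ _, ?_⟩
        have hy' : ((⟨y.1, hYD y.2⟩ : D) : D ⧸ Z.subgroupOf D) = (u : D ⧸ Z.subgroupOf D) := hy
        rw [← hy', hτ]
        have h5 : φ ⟨y.1, hYD y.2⟩ = ⟨y.1, hYD y.2⟩ := by
          apply Subtype.ext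
          change t * y.1 * t⁻¹ = y.1
          rw [htY _ y.2, mul_inv_cancel_right]
        rw [h5]
    rw [← Set.ncard_coe_finset, h1, ← Set.image_univ,
      Set.ncard_image_of_injective _ (Subgroup.quotientSubgroupOfEmbeddingOfLE Z hYD).injective, Set.ncard_univ]
    rfl
  rw [hright] at key
  have himg : {ψ : G → ℂ | ψ ∈ XL M (cz Q) θ Z 1 ∧ cjF t ψ = ψ} =
      Subtype.val '' ((Finset.univ.filter fun a : XL M (cz Q) θ Z 1 => σ a = a :
        Finset (XL M (cz Q) θ Z 1)) : Set (XL M (cz Q) θ Z 1)) := by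
    ext ψ
    constructor
    · rintro ⟨h1, h2⟩
      refine ⟨⟨ψ, h1⟩, ?_, rfl⟩
      rw [Finset.mem_coe, Finset.mem_filter]
      exact ⟨Finset.mem_univ _, Subtype.ext h2⟩
    · rintro ⟨a, ha, rfl⟩
      rw [Finset.mem_coe, Finset.mem_filter] at ha
      exact ⟨a.2, congrArg Subtype.val ha.2⟩
  rw [himg, Set.ncard_image_of_injective _ Subtype.val_injective, Set.ncard_coe_finset, key]

end Pool.Agent.FI3F
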