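import Pool.Agent.helper58.FI3F.SpecF3

/-!
# Row `fi3:FKE3` (MP_baa4d7_al)

Central elements in the kernel.
-/

set_option autoImplicit false

namespace Pool.Agent.FI3F

open Pool.Agent.helper58.DC Pool.Agent.DI Pool.Agent.GR Pool.Agent.OB Pool.Agent.DR Pool.Agent.FI Pool.Agent.FI3

theorem FKE3_const {G : Type} [Group G] [Finite G] (K : Subgroup G) (c : ℂ) :
    (∑ᶠ t ∈ (K : Set G), (fun _ => c) t) = (Nat.card K : ℂ) * c := by
  classical
  have : Fintype G := Fintype.ofFinite G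
  have : Fintype K := Fintype.ofFinite K
  rw [← finsum_set_coe_eq_finsum_mem]
  change ∑ᶠ _ : K, c = _
  rw [finsum_eq_sum_of_fintype, Finset.sum_const, Finset.card_univ, ← Nat.card_eq_fintype_card, nsmul_eq_mul]

theorem FKE3 (hSCH : SCH_stmt) (hIF : IF_stmt) : FKE3_stmt := by
  intro G _ _ K Z hZK hc ψ hψ
  have hcard : (Nat.card K : ℂ) ≠ 0 := by exact_mod_cast Nat.card_pos.ne'
  have h1 : ∀ z ∈ Z, ∀ x, ψ (z * x) * ψ 1 = ψ z * ψ x := by
    intro z hz x
    by_cases hx : x ∈ K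
    · have h := hSCH G K ψ hψ x hx z
      have e : (∑ᶠ t ∈ (K : Set G), ψ (x * (t * z * t⁻¹))) = (Nat.card K : ℂ) * ψ (z * x) := by
        rw [← FKE3_const K (ψ (z * x))]
        refine finsum_mem_congr rfl fun t ht => ?_
        have h2 : t * z = z * t := hc z hz t ht
        rw [h2, mul_inv_cancel_right, hc z hz x hx]
      rw [e] at h
      have h3 : (Nat.card K : ℂ) * (ψ (z * x) * ψ 1) = (Nat.card K : ℂ) * (ψ z * ψ x) := by
        linear_combination h
      exact mul_left_cancel₀ hcard h3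
    · have hzx : z * x ∉ K := fun h => hx ((Subgroup.mul_mem_cancel_left K (hZK hz)).1 h)
      rw [hψ.1 x hx, hψ.1 _ hzx]
      ring
  refine ⟨h1, ?_⟩
  obtain ⟨n, hn, hn1⟩ := ((hIF G K).2 ψ hψ).1
  have h0 : ψ 1 ≠ 0 := by
    rw [hn1]
    exact_mod_cast hn.ne'
  constructor
  · intro h z
    have := h z z.2 1
    rw [mul_one] at this
    rw [this, MonoidHom.one_apply, Units.val_one, one_mul]
  · intro h z hz x
    have h2 := h ⟨z, hz⟩
    rw [MonoidHom.one_apply, Units.val_one, one_mul] at h2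
    have h3 := h1 z hz x
    change ψ z = ψ 1 at h2
    rw [h2, mul_comm] at h3
    exact mul_left_cancel₀ h0 h3

end Pool.Agent.FI3F
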