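import Pool.Agent.helper58.FI3F.FXO3

set_option autoImplicit false

namespace Pool.Agent.FI3F

open Pool.Agent.helper58.DC Pool.Agent.DI Pool.Agent.GR Pool.Agent.OB Pool.Agent.DR Pool.Agent.FI Pool.Agent.FI3

theorem FXC3 (hBR0 : BR0_stmt) (hFBC : FBC_stmt) (hFKE3 : FKE3_stmt) (hIF : IF_stmt) : FXC3_stmt := by
  intro p M hS G _ _ D K Z θ hZp hZK hcom hG
  classical
  have : Fintype G := Fintype.ofFinite G
  have : Fintype Z := Fintype.ofFinite Z
  obtain ⟨hfin, hirr⟩ := hIF G K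
  have hb : (Bl M K θ).Finite := hfin.subset fun ψ hψ => hψ.1
  have hone : ∀ ψ ∈ Bl M K θ, ψ 1 ≠ 0 := by
    intro ψ hψ
    obtain ⟨⟨n, hn, hn'⟩, -, -⟩ := hirr ψ hψ.1
    rw [hn']
    exact_mod_cast hn.ne'
  have hXL : XL M K θ Z 1 ⊆ Bl M K θ := fun ψ hψ => hψ.1
  have hmemXL : ∀ ψ ∈ Bl M K θ, ψ ∈ XL M K θ Z 1 ↔ ∀ z : Z, ψ z = ψ 1 := by
    intro ψ hψ
    constructor
    · intro h z
      have := h.2 z
      simpa using this
    · intro h
      refine ⟨hψ, fun z => ?_⟩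
      have := h z
      simpa using this
  have hreg1 : PReg p (1 : G) := by
    unfold PReg
    rw [orderOf_one]
    exact fun h => hS.1.one_lt.ne' (Nat.dvd_one.1 h)
  have hpe1 : PEl p (1 : G) := ⟨0, by simp⟩
  have e1 : ∑ ψ ∈ hb.toFinset, ∑ z : Z, ψ z / ψ 1 = ((XL M K θ Z 1).ncard : ℂ) * Nat.card Z := by
    have h1 : ∀ ψ ∈ hb.toFinset, ∑ z : Z, ψ z / ψ 1 = if ψ ∈ XL M K θ Z 1 then (Nat.card Z : ℂ) else 0 := by
      intro ψ hψ
      rw [Set.Finite.mem_toFinset] at hψ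
      obtain ⟨s1, s2⟩ := FXO3_sum hFKE3 K Z hZK hcom ψ hψ.1 (hone ψ hψ)
      split_ifs with h
      · exact s1 ((hmemXL ψ hψ).1 h)
      · exact s2 fun h' => h ((hmemXL ψ hψ).2 h')
    rw [Finset.sum_congr rfl h1, ← Finset.sum_filter, Finset.sum_const, nsmul_eq_mul]
    congr 2
    rw [Set.ncard_eq_toFinset_card _ (hb.subset hXL)]
    congr 1
    ext ψ
    simp only [Set.Finite.mem_toFinset, Finset.mem_filter]
    exact ⟨fun h => h.2, fun h => ⟨hXL h, h⟩⟩
  have e2 : ∑ ψ ∈ hb.toFinset, ∑ z : Z, ψ z / ψ 1 = (Nat.card D : ℂ) := by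
    rw [Finset.sum_comm, Finset.sum_eq_single (1 : Z)]
    · have h1 : ∀ ψ ∈ hb.toFinset, ψ ((1 : Z) : G) / ψ 1 = 1 := by
        intro ψ hψ
        rw [Set.Finite.mem_toFinset] at hψ
        rw [Subgroup.coe_one, div_self (hone ψ hψ)]
      rw [Finset.sum_congr rfl h1, Finset.sum_const, nsmul_eq_mul, mul_one, ← hG.card,
        Set.ncard_eq_toFinset_card _ hb]
    · intro z _ hz
      have hz1 : (z : G) ≠ 1 := fun h => hz (Subtype.ext h)
      have hpz : PEl p (z : G) := by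
        obtain ⟨k, hk⟩ := hZp z
        exact ⟨k, by
          have h := congrArg (Subtype.val) hk
          simpa using h⟩
      have h0 := hBR0 p M hS G K (Bl M K θ) (hFBC p M hS G K θ 1).1 z (hZK z.2) 1 K.one_mem 1 K.one_mem 1 K.one_mem
        hpz hpe1 hreg1 hreg1 (Commute.one_right _) (Commute.one_right _) (by
          intro h _ h'
          refine hz1 ?_
          have h2 : (z : G) = h * (h⁻¹ * z * h) * h⁻¹ := by group
          rw [h2, h']
          group)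
      rw [mul_one, mul_one] at h0
      unfold Sf at h0
      rw [finsum_mem_eq_finite_toFinset_sum _ hb] at h0
      rcases hb.toFinset.eq_empty_or_nonempty with he | ⟨ψ₀, hψ₀⟩
      · rw [he]
        simp
      · rw [Set.Finite.mem_toFinset] at hψ₀
        have h3 : ∀ ψ ∈ hb.toFinset, ψ z / ψ 1 = (ψ z * ψ (1 : G)⁻¹) / (ψ₀ 1 * ψ₀ 1) := by
          intro ψ hψ
          rw [Set.Finite.mem_toFinset] at hψ
          have h4 : ψ 1 = ψ₀ 1 := hG.reg ψ hψ ψ₀ hψ₀ 1 K.one_mem hreg1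
          rw [inv_one, h4, mul_div_mul_right _ _ (hone ψ₀ hψ₀)]
        rw [Finset.sum_congr rfl h3, ← Finset.sum_div, h0, zero_div]
    · intro h
      exact absurd (Finset.mem_univ _) h
  have e3 : ((XL M K θ Z 1).ncard : ℂ) * Nat.card Z = (Nat.card D : ℂ) := e1.symm.trans e2
  exact_mod_cast e3

end Pool.Agent.FI3F
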