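import Pool.Agent.helper58.FI3F.SpecF3

/-!
# Project fi3, row FXO3: orthogonality over the trivial character of `Z`
-/

set_option autoImplicit false

namespace Pool.Agent.FI3F

open Pool.Agent.helper58.DC Pool.Agent.DI Pool.Agent.GR Pool.Agent.OB Pool.Agent.DR Pool.Agent.FI Pool.Agent.FI3

theorem FXO3_Cz {G : Type} [Group G] (Q : Subgroup G) (v : G) : Cz (cz Q) v = cz (Q ⊔ Subgroup.zpowers v) := by
  apply le_antisymm
  · rintro k ⟨hk1, hk2⟩
    have h1 : Q ⊔ Subgroup.zpowers v ≤ Subgroup.centralizer {k} := by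
      refine sup_le (fun q hq => ?_) ?_
      · rw [Subgroup.mem_centralizer_singleton_iff]
        exact (Subgroup.mem_centralizer_iff.1 hk1 q hq)
      · rw [Subgroup.zpowers_le, Subgroup.mem_centralizer_singleton_iff]
        exact (Subgroup.mem_centralizer_singleton_iff.1 hk2).symm
    rw [Subgroup.mem_centralizer_iff]
    intro h hh
    exact Subgroup.mem_centralizer_singleton_iff.1 (h1 hh)
  · intro k hk
    have hk' := Subgroup.mem_centralizer_iff.1 hk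
    refine ⟨Subgroup.mem_centralizer_iff.2 fun q hq => hk' q (Subgroup.mem_sup_left hq), ?_⟩
    exact Subgroup.mem_centralizer_singleton_iff.2 (hk' v (Subgroup.mem_sup_right (Subgroup.mem_zpowers v))).symm

/-- the sum of the values of a central character over `Z` -/
theorem FXO3_sum (hFKE : FKE3_stmt) {G : Type} [Group G] [Finite G] (K Z : Subgroup G) [Fintype Z] (hZK : Z ≤ K)
    (hcom : ∀ z ∈ Z, ∀ k ∈ K, k * z = z * k) (ψ : G → ℂ) (hψ : ψ ∈ IrrOn K) (h1 : ψ 1 ≠ 0) :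
    ((∀ z : Z, ψ z = ψ 1) → ∑ z : Z, ψ z / ψ 1 = (Nat.card Z : ℂ)) ∧ ((¬ ∀ z : Z, ψ z = ψ 1) → ∑ z : Z, ψ z / ψ 1 = 0) := by
  constructor
  · intro h
    have h2 : ∀ z : Z, ψ z / ψ 1 = 1 := fun z => by rw [h z, div_self h1]
    simp [h2, Nat.card_eq_fintype_card]
  · intro h
    push Not at h
    obtain ⟨z0, hz0⟩ := h
    have hmul := (hFKE G K Z hZK hcom ψ hψ).1 z0 z0.2
    have h2 : ∀ z : Z, ψ ((z0 * z : Z) : G) / ψ 1 = ψ z0 / ψ 1 * (ψ z / ψ 1) := by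
      intro z
      have h3 := hmul z
      rw [Subgroup.coe_mul, div_mul_div_comm, ← h3, mul_div_mul_right _ _ h1]
    have h3 : ∑ z : Z, ψ z / ψ 1 = ψ z0 / ψ 1 * ∑ z : Z, ψ z / ψ 1 := by
      rw [Finset.mul_sum, ← Equiv.sum_comp (Equiv.mulLeft z0) (fun z : Z => ψ z / ψ 1)]
      exact Finset.sum_congr rfl fun z _ => h2 z
    have h4 : (ψ z0 / ψ 1 - 1) * ∑ z : Z, ψ z / ψ 1 = 0 := by
      rw [sub_mul, ← h3, one_mul, sub_self]
    rcases mul_eq_zero.1 h4 with h5 | h5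
    · exact absurd ((div_eq_one_iff_eq h1).1 (sub_eq_zero.1 h5)) hz0
    · exact h5

theorem FXO3 (hDOR : DOR3_stmt) (hFZD : FZD3_stmt) (hFKE : FKE3_stmt) (hFRA : FRA3_stmt) (hIF : IF_stmt) : FXO3_stmt := by
  intro p M hS G _ _ D x θ χ hL Q hQ hQY Z hZ a ha u hu
  classical
  have : Fintype G := Fintype.ofFinite G
  have : Fintype Z := Fintype.ofFinite Z
  obtain ⟨⟨-, -, h3, -, h5⟩, -, -⟩ := hFRA p M hS G D x θ χ hL.lo Q hQ
  have hcom : ∀ z ∈ Z, ∀ k ∈ cz Q, k * z = z * k := fun z hz k hk =>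
    (Subgroup.mem_centralizer_iff.1 hk z (hZ hz)).symm
  have hZK : Z ≤ cz Q := hZ.trans (hQ.trans h3)
  have hgood : ∀ v ∈ D, Good p M D (Cz (cz Q) v) θ := by
    intro v hv
    rw [FXO3_Cz]
    exact hL.good _ (sup_le hQ ((Subgroup.zpowers_le).2 hv)) fun h => hQY (le_sup_left.trans h)
  obtain ⟨hfin, hirr⟩ := hIF G (cz Q)
  have hb : (Bl M (cz Q) θ).Finite := hfin.subset fun ψ hψ => hψ.1
  have hone : ∀ ψ ∈ Bl M (cz Q) θ, ψ 1 ≠ 0 := by
    intro ψ hψ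
    obtain ⟨⟨n, hn, hn'⟩, -, -⟩ := hirr ψ hψ.1
    rw [hn']
    exact_mod_cast hn.ne'
  set X : (G → ℂ) → G → ℂ := fun ψ v => dd M (Cz (cz Q) v) θ ψ v with hX
  have hXz : ∀ z ∈ Z, ∀ ψ ∈ Bl M (cz Q) θ, ψ z / ψ 1 * X ψ a = X ψ (z * a) := by
    intro z hz ψ hψ
    have h := hFZD G M (cz Q) θ z (hZK hz) (fun k hk => hcom z hz k hk) a (h3 ha) ψ hψ.1
    rw [div_mul_eq_mul_div, div_eq_iff (hone ψ hψ)]
    exact h.symm
  have hin : ∀ z : Z, ∑ ψ ∈ hb.toFinset, X ψ (z * a) * (starRingEnd ℂ) (X ψ u) =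
      if (z : G) * a = u then (Nat.card D : ℂ) else 0 := by
    intro z
    obtain ⟨-, e1, e2⟩ := hDOR p M hS G D x θ χ hL.lo Q hQ (z * a) (D.mul_mem (hQ (hZ z.2)) ha) u hu
      (hgood _ (D.mul_mem (hQ (hZ z.2)) ha)) (hgood u hu)
    rw [← finsum_mem_eq_finite_toFinset_sum _ hb]
    split_ifs with h
    · exact e1 h
    · refine e2 ?_
      rintro ⟨t, ht, h'⟩
      rw [h5 hQY] at ht
      have h6 := Subgroup.mem_centralizer_iff.1 ht u hu
      rw [← h6, mul_inv_cancel_right] at h'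
      exact h h'.symm
  have hXL : XL M (cz Q) θ Z 1 ⊆ Bl M (cz Q) θ := fun ψ hψ => hψ.1
  have hmemXL : ∀ ψ ∈ Bl M (cz Q) θ, ψ ∈ XL M (cz Q) θ Z 1 ↔ ∀ z : Z, ψ z = ψ 1 := by
    intro ψ hψ
    constructor
    · intro h z
      have := h.2 z
      simpa using this
    · intro h
      refine ⟨hψ, fun z => ?_⟩
      have := h z
      simpa using this
  have htot : (Nat.card Z : ℂ) * ∑ᶠ ψ ∈ XL M (cz Q) θ Z 1, X ψ a * (starRingEnd ℂ) (X ψ u) =
      ∑ z : Z, if (z : G) * a = u then (Nat.card D : ℂ) else 0 := by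
    have e1 : ∑ᶠ ψ ∈ XL M (cz Q) θ Z 1, X ψ a * (starRingEnd ℂ) (X ψ u) =
        ∑ ψ ∈ hb.toFinset, if ψ ∈ XL M (cz Q) θ Z 1 then X ψ a * (starRingEnd ℂ) (X ψ u) else 0 := by
      rw [finsum_mem_eq_finite_toFinset_sum _ (hb.subset hXL), ← Finset.sum_filter]
      refine Finset.sum_congr ?_ fun _ _ => rfl
      ext ψ
      simp only [Set.Finite.mem_toFinset, Finset.mem_filter]
      exact ⟨fun h => ⟨hXL h, h⟩, fun h => h.2⟩
    rw [e1, Finset.mul_sum, Finset.sum_congr rfl fun z _ => (hin z).symm, Finset.sum_comm]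
    refine Finset.sum_congr rfl fun ψ hψ => ?_
    rw [Set.Finite.mem_toFinset] at hψ
    have e2 : ∑ z : Z, X ψ (z * a) * (starRingEnd ℂ) (X ψ u) =
        (∑ z : Z, ψ z / ψ 1) * (X ψ a * (starRingEnd ℂ) (X ψ u)) := by
      rw [Finset.sum_mul]
      refine Finset.sum_congr rfl fun z _ => ?_
      rw [← hXz z z.2 ψ hψ, mul_assoc]
    rw [e2]
    obtain ⟨s1, s2⟩ := FXO3_sum hFKE (cz Q) Z hZK hcom ψ hψ.1 (hone ψ hψ)
    split_ifs with h
    · rw [s1 ((hmemXL ψ hψ).1 h)]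
    · rw [s2 fun h' => h ((hmemXL ψ hψ).2 h'), mul_zero, zero_mul]
  constructor
  · intro h
    refine htot.trans ?_
    rw [Finset.sum_eq_single (⟨u * a⁻¹, h⟩ : Z)]
    · rw [if_pos (by simp)]
    · intro z _ hz
      refine if_neg fun h' => hz (Subtype.ext ?_)
      exact (mul_inv_eq_of_eq_mul h'.symm).symm
    · intro h'
      exact absurd (Finset.mem_univ _) h'
  · intro h
    have e1 : ∑ z : Z, (if (z : G) * a = u then (Nat.card D : ℂ) else 0) = 0 := by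
      refine Finset.sum_eq_zero fun z _ => if_neg fun h' => h ?_
      rw [← h', mul_inv_cancel_right]
      exact z.2
    rw [e1] at htot
    rcases mul_eq_zero.1 htot with h6 | h6
    · exact absurd (by exact_mod_cast h6 : Nat.card Z = 0) Nat.card_pos.ne'
    · exact h6

end Pool.Agent.FI3F
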