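import Pool.Agent.helper58.FI3F.SpecF3

/-!
# Project fi3 (MP_baa4d7_al), block F3: row FZC3
-/

set_option autoImplicit false

namespace Pool.Agent.FI3F

open Pool.Agent.helper58.DC Pool.Agent.DI Pool.Agent.GR Pool.Agent.OB Pool.Agent.DR Pool.Agent.FI Pool.Agent.FI3

theorem FZC3_conj {G : Type} [Group G] {l z : G} (h : l * z = z * l) : l⁻¹ * z * l = z := by
  rw [mul_assoc, ← h, ← mul_assoc, inv_mul_cancel, one_mul]

theorem FZC3_conj' {G : Type} [Group G] {l z : G} (h : l * (l⁻¹ * z * l) = (l⁻¹ * z * l) * l) : z = l⁻¹ * z * l := by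
  have h1 : z * l = (l⁻¹ * z * l) * l := by
    rw [← h]
    group
  exact mul_right_cancel h1

theorem FZC3 (hFRA3 : FRA3_stmt) : FZC3_stmt := by
  intro p M hS G _ _ D x θ χ lo P hP
  have hYD : YY M D θ ≤ D := inf_le_left
  have hPD : P ≤ D := hP.trans hYD
  obtain ⟨⟨h1, h2, h3, h4, -⟩, -, -⟩ := hFRA3 p M hS G D x θ χ lo P hPD
  have hT : TT M D θ ≤ cz P := h4 hP
  have hTn : TT M D θ ≤ nz D := fun t ht => ht.1
  have hZY : Zc D (cz P) ≤ YY M D θ := by
    intro u hu
    obtain ⟨hu1, hu2⟩ := Zc_mem.1 hu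
    exact ⟨hu1, Subgroup.mem_centralizer_iff.2 fun t ht => hu2 t (hT ht)⟩
  have hPZ : P ≤ Zc D (cz P) := fun u hu =>
    Zc_mem.2 ⟨hPD hu, fun l hl => ((Subgroup.mem_centralizer_iff.1 hl) u hu).symm⟩
  have hZD : Zc D (cz P) ≤ D := inf_le_left
  have hpD : IsPGroup p D := lo.rt.dfa.pgrp
  have hcom : ∀ l ∈ cz P, ∀ z ∈ Zc D (cz P), l * z = z * l := fun l hl z hz => (Zc_mem.1 hz).2 l hl
  have hty : ∀ t ∈ TT M D θ, ∀ y ∈ YY M D θ, t * y = y * t := fun t ht y hy =>
    (Subgroup.mem_centralizer_iff.1 hy.2) t ht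
  refine ⟨⟨hPZ, hZY, lt_of_le_of_ne hZD ?_, h3, hpD, hT, hTn, hpD.to_le hZD, hYD⟩, ?_, ?_, ?_, hty, ?_, ?_⟩
  · intro h
    exact lo.ny (h.ge.trans hZY)
  · intro l hl
    refine ⟨hcom l hl, ?_, ?_⟩
    · ext z
      rw [mem_cjS]
      constructor
      · intro hz
        rw [FZC3_conj' (hcom l hl _ hz)]
        exact hz
      · intro hz
        rw [FZC3_conj (hcom l hl z hz)]
        exact hz
    · ext z
      rw [mem_cjS]
      constructor
      · intro hz
        have h5 := (cz P).mul_mem ((cz P).mul_mem hl hz) ((cz P).inv_mem hl)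
        have h6 : l * (l⁻¹ * z * l) * l⁻¹ = z := by group
        rwa [h6] at h5
      · intro hz
        exact (cz P).mul_mem ((cz P).mul_mem ((cz P).inv_mem hl) hz) hl
  · intro Q hQ
    exact Subgroup.centralizer_le (hPZ.trans hQ)
  · refine le_antisymm (Subgroup.centralizer_le hPZ) fun l hl => ?_
    exact Subgroup.mem_centralizer_iff.2 fun z hz => (hcom l hl z hz).symm
  · intro t ht Q
    constructor
    · intro h q hq
      have h5 : t * q * t⁻¹ ∈ cjS t Q := by
        rw [mem_cjS]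
        have h6 : t⁻¹ * (t * q * t⁻¹) * t = q := by group
        rwa [h6]
      have h7 := h h5
      have h8 := FZC3_conj (hty t ht _ h7)
      have h6 : t⁻¹ * (t * q * t⁻¹) * t = q := by group
      rw [h6] at h8
      rw [h8]
      exact h7
    · intro h z hz
      rw [mem_cjS] at hz
      have h5 := h hz
      rw [FZC3_conj' (hty t ht _ h5)]
      exact h5
  · have h5 := Subgroup.relIndex_mul_relIndex (⊥ : Subgroup G) (cz D) (TT M D θ) bot_le h1
    rw [Subgroup.relIndex_bot_left, Subgroup.relIndex_bot_left] at h5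
    exact h5.symm

end Pool.Agent.FI3F
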