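import Pool.Agent.helper58.FI3F.SpecF3

/-!
# Project fi3 (MP_baa4d7_al), block F3, row FZD3: decomposition numbers at `z u`, `z` central
-/

set_option autoImplicit false

namespace Pool.Agent.FI3F

open Pool.Agent.helper58.DC Pool.Agent.DI Pool.Agent.GR Pool.Agent.OB Pool.Agent.DR Pool.Agent.FI Pool.Agent.FI3

/-- a central element acts by a scalar -/
theorem FZD3_mul (hSCH : SCH_stmt) {G : Type} [Group G] [Finite G] (H : Subgroup G) {ψ : G → ℂ}
    (hψ : ψ ∈ IrrOn H) {z : G} (hz : z ∈ H) (hc : ∀ k ∈ H, k * z = z * k) (x : G) :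
    ψ (z * x) * ψ 1 = ψ z * ψ x := by
  by_cases hx : x ∈ H
  · have h1 := hSCH G H ψ hψ x hx z
    have h2 : ∀ t ∈ (H : Set G), ψ (x * (t * z * t⁻¹)) = ψ (z * x) := by
      intro t ht
      rw [hc t ht, mul_inv_cancel_right, hc x hx]
    rw [finsum_mem_congr rfl h2] at h1
    have h3 : ∑ᶠ t ∈ (H : Set G), ψ (z * x) = (Nat.card H : ℂ) * ψ (z * x) := by
      rw [finsum_mem_eq_finite_toFinset_sum _ (Set.toFinite _), Finset.sum_const, nsmul_eq_mul]
      congr 2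
      rw [← Set.ncard_eq_toFinset_card]
      rfl
    rw [h3] at h1
    have h4 : (Nat.card H : ℂ) ≠ 0 := by
      exact_mod_cast Nat.card_pos.ne'
    apply mul_left_cancel₀ h4
    linear_combination h1
  · have h1 : z * x ∉ H := by
      intro h
      exact hx ((Subgroup.mul_mem_cancel_left H hz).1 h)
    rw [hψ.1 _ h1, hψ.1 _ hx, zero_mul, mul_zero]

theorem FZD3 (hSCH : SCH_stmt) (hIF : IF_stmt) : FZD3_stmt := by
  intro G _ _ M K θ z hz hzc u hu ψ hψ
  have hCz : Cz K (z * u) = Cz K u := by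
    ext k
    unfold Cz
    rw [Subgroup.mem_inf, Subgroup.mem_inf, Subgroup.mem_centralizer_singleton_iff,
      Subgroup.mem_centralizer_singleton_iff]
    constructor
    · rintro ⟨hk, h⟩
      refine ⟨hk, ?_⟩
      have h1 : z * (k * u) = z * (u * k) := by
        calc z * (k * u) = (z * k) * u := by group
          _ = (k * z) * u := by rw [hzc k hk]
          _ = k * (z * u) := by group
          _ = z * u * k := h
          _ = z * (u * k) := by group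
      exact mul_left_cancel h1
    · rintro ⟨hk, h⟩
      refine ⟨hk, ?_⟩
      calc k * (z * u) = (k * z) * u := by group
        _ = (z * k) * u := by rw [hzc k hk]
        _ = z * (k * u) := by group
        _ = z * (u * k) := by rw [h]
        _ = z * u * k := by group
  rw [hCz]
  obtain ⟨n, hn, hn1⟩ := ((hIF G K).2 ψ hψ).1
  have h1 : ψ 1 ≠ 0 := by
    rw [hn1]
    exact_mod_cast hn.ne'
  have hzH : z ∈ Cz K u := by
    unfold Cz
    rw [Subgroup.mem_inf, Subgroup.mem_centralizer_singleton_iff]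
    exact ⟨hz, (hzc u hu).symm⟩
  have hzcH : ∀ k ∈ Cz K u, k * z = z * k := fun k hk => hzc k (Subgroup.mem_inf.1 hk).1
  have hm : ∀ x, ψ (z * x) * ψ 1 = ψ z * ψ x := fun x => FZD3_mul hSCH K hψ hz hzc x
  have key : ∀ ψ' ∈ Bl M (Cz K u) θ, FI.mt (Cz K u) ψ ψ' * (ψ' (z * u) / ψ' 1) =
      (ψ z / ψ 1) * (mt (Cz K u) ψ ψ' * (ψ' u / ψ' 1)) := by
    intro ψ' hψ'
    have hI : ψ' ∈ IrrOn (Cz K u) := hψ'.1
    obtain ⟨m, hm0, hm1⟩ := ((hIF G (Cz K u)).2 ψ' hI).1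
    have h1' : ψ' 1 ≠ 0 := by
      rw [hm1]
      exact_mod_cast hm0.ne'
    have hm' : ∀ x, ψ' (z * x) * ψ' 1 = ψ' z * ψ' x := fun x => FZD3_mul hSCH _ hI hzH hzcH x
    have hS : ψ' z * ψ 1 * ∑ᶠ x ∈ ((Cz K u : Subgroup G) : Set G), ψ x * ψ' x⁻¹ =
        ψ z * ψ' 1 * ∑ᶠ x ∈ ((Cz K u : Subgroup G) : Set G), ψ x * ψ' x⁻¹ := by
      have e1 : ∑ᶠ x ∈ ((Cz K u : Subgroup G) : Set G), ψ x * ψ' x⁻¹ =
          ∑ᶠ x ∈ ((Cz K u : Subgroup G) : Set G), ψ (z * x) * ψ' (z * x)⁻¹ := by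
        symm
        refine finsum_mem_eq_of_bijOn (fun x => z * x) ⟨fun x hx => ?_, fun x _ y _ h => ?_, fun x hx => ?_⟩
          fun x _ => rfl
        · exact (Cz K u).mul_mem hzH hx
        · exact mul_left_cancel h
        · exact ⟨z⁻¹ * x, (Cz K u).mul_mem ((Cz K u).inv_mem hzH) hx, mul_inv_cancel_left z x⟩
      have e5 : ∀ x ∈ ((Cz K u : Subgroup G) : Set G), ψ' z * ψ 1 * (ψ (z * x) * ψ' (z * x)⁻¹) =
          ψ z * ψ' 1 * (ψ x * ψ' x⁻¹) := by
        intro x hx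
        have e2 : z * (z * x)⁻¹ = x⁻¹ := by
          have h := hzcH x⁻¹ ((Cz K u).inv_mem hx)
          calc z * (z * x)⁻¹ = (z * x⁻¹) * z⁻¹ := by group
            _ = (x⁻¹ * z) * z⁻¹ := by rw [h]
            _ = x⁻¹ := by group
        have e3 := hm' (z * x)⁻¹
        rw [e2] at e3
        have e4 := hm x
        linear_combination (ψ' z * ψ' (z * x)⁻¹) * e4 - (ψ z * ψ x) * e3
      calc ψ' z * ψ 1 * ∑ᶠ x ∈ ((Cz K u : Subgroup G) : Set G), ψ x * ψ' x⁻¹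
          = ψ' z * ψ 1 * ∑ᶠ x ∈ ((Cz K u : Subgroup G) : Set G), ψ (z * x) * ψ' (z * x)⁻¹ := by rw [← e1]
        _ = ∑ᶠ x ∈ ((Cz K u : Subgroup G) : Set G), ψ' z * ψ 1 * (ψ (z * x) * ψ' (z * x)⁻¹) :=
          mul_finsum_mem _ _
        _ = ∑ᶠ x ∈ ((Cz K u : Subgroup G) : Set G), ψ z * ψ' 1 * (ψ x * ψ' x⁻¹) := finsum_mem_congr rfl e5
        _ = ψ z * ψ' 1 * ∑ᶠ x ∈ ((Cz K u : Subgroup G) : Set G), ψ x * ψ' x⁻¹ := (mul_finsum_mem _ _).symm
    have hS' : (ψ' z / ψ' 1) * FI.mt (Cz K u) ψ ψ' = (ψ z / ψ 1) * FI.mt (Cz K u) ψ ψ' := by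
      unfold FI.mt
      rw [← mul_div_assoc, ← mul_div_assoc]
      congr 1
      rw [div_mul_eq_mul_div, div_mul_eq_mul_div, div_eq_div_iff h1' h1]
      linear_combination hS
    have h5 : ψ' (z * u) / ψ' 1 = (ψ' z / ψ' 1) * (ψ' u / ψ' 1) := by
      have h6 := hm' u
      field_simp
      linear_combination h6
    rw [h5]
    linear_combination (ψ' u / ψ' 1) * hS'
  unfold dd
  rw [finsum_mem_congr rfl key]
  rw [← mul_finsum_mem]
  field_simp

end Pool.Agent.FI3F
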