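import Pool.Agent.helper58.FI3F.CNQ3
import Pool.Agent.helper58.FI3F.F123
import Pool.Agent.helper58.FI3F.FBB3
import Pool.Agent.helper58.FI3F.FCP3
import Pool.Agent.helper58.FI3F.FCQ3
import Pool.Agent.helper58.FI3F.FFD3
import Pool.Agent.helper58.FI3F.FFF3
import Pool.Agent.helper58.FI3F.FFS3
import Pool.Agent.helper58.FI3F.FIX3
import Pool.Agent.helper58.FI3F.FKE3
import Pool.Agent.helper58.FI3F.FMX3
import Pool.Agent.helper58.FI3F.FNC3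
import Pool.Agent.helper58.FI3F.FNG3
import Pool.Agent.helper58.FI3F.FOV3
import Pool.Agent.helper58.FI3F.FSQ3
import Pool.Agent.helper58.FI3F.FTG3
import Pool.Agent.helper58.FI3F.FXC3
import Pool.Agent.helper58.FI3F.FXO3
import Pool.Agent.helper58.FI3F.FZC3
import Pool.Agent.helper58.FI3F.FZD3
import Pool.Agent.helper59.FI3.AllP3
import Pool.Agent.helper12.FI3.SpecO
import Pool.Agent.helper58.FI.AllC
import Pool.Agent.helper22.FI.AllA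

/-!
# Project fi3 (MP_baa4d7_al), block F3: assembly

`oFFF3 : Pool.Agent.FI3.FFF3_stmt` (the form of `helper12/FI3/SpecO`) and `cFFD3 : FFD3_stmt`.
-/

set_option autoImplicit false

namespace Pool.Agent.FI3F.AllF

open Pool.Agent.helper58.DC Pool.Agent.DI Pool.Agent.GR Pool.Agent.OB Pool.Agent.DR Pool.Agent.FI Pool.Agent.FI3 Pool.Agent.FI3F

theorem cFRA3 : Pool.Agent.FI3F.FRA3_stmt := fun p M hS G _ _ D x θ χ h =>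
  Pool.Agent.FI3.AllP3.pFRA3 p M hS G D x θ χ h.toLoS
theorem cHTZ3 : Pool.Agent.FI3F.HTZ3_stmt := fun p M hS G _ _ D x θ χ h =>
  Pool.Agent.FI3.AllP3.pHTZ3 p M hS G D x θ χ h.toLoS
theorem cDOR3 : Pool.Agent.FI3F.DOR3_stmt := fun p M hS G _ _ D x θ χ h =>
  Pool.Agent.FI3.AllP3.pDOR3 p M hS G D x θ χ h.toLoS
theorem cDDT3 : Pool.Agent.FI3F.DDT3_stmt := fun p M hS G _ _ D x θ χ h =>
  Pool.Agent.FI3.AllP3.pDDT3 p M hS G D x θ χ h.toLoS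

theorem cFZC3 : FZC3_stmt := Pool.Agent.FI3F.FZC3 cFRA3
theorem cFTG3 : FTG3_stmt := Pool.Agent.FI3F.FTG3
theorem cCNQ3 : CNQ3_stmt := Pool.Agent.FI3F.CNQ3 Pool.Agent.FI.AllA.dEXB Pool.Agent.FI.AllC.cFSI Pool.Agent.FI.AllC.cFEQ
theorem cFNG3 : FNG3_stmt := Pool.Agent.FI3F.FNG3 cCNQ3 cFZC3 Pool.Agent.FI.AllC.cFEQ Pool.Agent.FI.AllC.cFSI Pool.Agent.GR.All.dIF
theorem cFCP3 : FCP3_stmt := Pool.Agent.FI3F.FCP3 cFRA3 Pool.Agent.GR.All.dIF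
theorem cFOV3 : FOV3_stmt := Pool.Agent.FI3F.FOV3 Pool.Agent.DR.AllDI.iC5a Pool.Agent.GR.All.dSCH Pool.Agent.GR.All.dIF
theorem cFKE3 : FKE3_stmt := Pool.Agent.FI3F.FKE3 Pool.Agent.GR.All.dSCH Pool.Agent.GR.All.dIF
theorem cF123 : F123_stmt := Pool.Agent.FI3F.F123 Pool.Agent.GR.All.dIF Pool.Agent.FI.AllC.cFCN Pool.Agent.FI.AllC.cFCL cFOV3 Pool.Agent.DR.All.rCFA Pool.Agent.FI.AllC.cFEQ
theorem cFZD3 : FZD3_stmt := Pool.Agent.FI3F.FZD3 Pool.Agent.GR.All.dSCH Pool.Agent.GR.All.dIF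
theorem cFXO3 : FXO3_stmt := Pool.Agent.FI3F.FXO3 cDOR3 cFZD3 cFKE3 cFRA3 Pool.Agent.GR.All.dIF
theorem cFBB3 : FBB3_stmt := Pool.Agent.FI3F.FBB3 Pool.Agent.FI.AllC.cFSI Pool.Agent.GR.All.dIM Pool.Agent.DR.AllDI.iC3
theorem cFMX3 : FMX3_stmt := Pool.Agent.FI3F.FMX3
theorem cFXC3 : FXC3_stmt := Pool.Agent.FI3F.FXC3 Pool.Agent.GR.All.dBR0 Pool.Agent.FI.AllC.cFBC cFKE3 Pool.Agent.GR.All.dIF
theorem cFCQ3 : FCQ3_stmt := Pool.Agent.FI3F.FCQ3 cCNQ3 cFCP3 cHTZ3 cFZC3 Pool.Agent.FI.AllC.cFEQ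
theorem cFIX3 : FIX3_stmt := Pool.Agent.FI3F.FIX3 cFXO3 cFXC3 cFZD3 Pool.Agent.FI.AllC.cBPL cDDT3 cFRA3 Pool.Agent.FI.AllC.cFEQ Pool.Agent.GR.All.dIF
theorem cFSQ3 : FSQ3_stmt := Pool.Agent.FI3F.FSQ3 cFIX3 cFXC3 cFCP3 cFRA3 Pool.Agent.FI.AllC.cFEQ
theorem cFNC3 : FNC3_stmt := Pool.Agent.FI3F.FNC3 cFMX3 cF123 cFCQ3 cFNG3 cFSQ3 cFZC3 cFKE3 Pool.Agent.FI.AllC.cFEQ Pool.Agent.FI.AllC.cFSI Pool.Agent.GR.All.dIF
theorem cFFS3 : FFS3_stmt := Pool.Agent.FI3F.FFS3 cFNC3 cFTG3 cFZC3 Pool.Agent.GR.All.dNM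
theorem cFFF3 : Pool.Agent.FI3F.FFF3_stmt := Pool.Agent.FI3F.FFF3 cFFS3 cFZC3 cFKE3
theorem cFFD3 : FFD3_stmt := Pool.Agent.FI3F.FFD3 Pool.Agent.FI.AllC.cFT0 cFFS3 cFNC3 cFBB3 cFZC3

/-- The form of `helper12/FI3/SpecO`. -/
theorem oFFF3 : Pool.Agent.FI3.FFF3_stmt := by
  intro p M hS G _ _ D x θ χ h P hP hSg
  refine ⟨?_, fun C hC hne => (cFNC3 p M hS G D x θ χ h P hP hSg C hC hne).2⟩
  have h1 := cFFF3 p M hS G D x θ χ h P hP hSg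
  obtain ⟨⟨-, c2, -, -, -, -, -, -, c9⟩, -⟩ := cFZC3 p M hS G D x θ χ h.lo P hP
  have h2 : (Zc D (cz P)).relIndex (YY M D θ) ≤ (Zc D (cz P)).relIndex D := by
    refine Subgroup.relIndex_le_of_le_right c9 ?_
    exact Subgroup.FiniteIndex.index_ne_zero
  rw [h1]
  unfold fZ
  rw [show (cz D).relIndex (TT M D θ) = iI M D θ from rfl]
  push_cast [Nat.cast_sub h2]
  ring

end Pool.Agent.FI3F.AllF
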