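import Pool.Agent.helper58.FI3F.SpecF3

/-!
# Project fi3 (MP_baa4d7_al), block F3, row CNQ3: every relative subpair of `cz P` is conjugate in `cz P` into `D`
-/

set_option autoImplicit false

namespace Pool.Agent.FI3F

open Pool.Agent.helper58.DC Pool.Agent.DI Pool.Agent.GR Pool.Agent.OB Pool.Agent.DR Pool.Agent.FI Pool.Agent.FI3

theorem CNQ3 (hEXB : EXB_stmt) (hFSI : FSI_stmt) (hFEQ : FEQ_stmt) : CNQ3_stmt := by
  intro p M hS G _ _ D x θ χ lo P hPD Q hQp hPQ η hηQ hSB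
  -- transport
  have f1 : ∀ (g h : G) (P : Subgroup G), cjS g (cjS h P) = cjS (g * h) P :=
    fun g h P => (hFEQ G M g h P P P θ θ χ).1.1
  have f2 : ∀ (g h : G) (ψ : G → ℂ), cjF g (cjF h ψ) = cjF (g * h) ψ :=
    fun g h ψ => (hFEQ G M g h P P P θ ψ χ).1.2.1
  have f3 : ∀ (g : G) (P : Subgroup G), cz (cjS g P) = cjS g (cz P) :=
    fun g P => (hFEQ G M g 1 P P P θ θ χ).2.1.1
  have f4 : ∀ (g : G) (P Q : Subgroup G), (cjS g P ≤ cjS g Q ↔ P ≤ Q) :=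
    fun g P Q => (hFEQ G M g 1 P Q P θ θ χ).2.1.2.2.1
  have f5 : ∀ (g : G) (P : Subgroup G), (cjS g P = P ↔ g ∈ nz P) :=
    fun g P => (hFEQ G M g 1 P P P θ θ χ).2.1.2.2.2.1
  have f6 : ∀ (g : G) (P : Subgroup G), Nat.card (cjS g P) = Nat.card P :=
    fun g P => (hFEQ G M g 1 P P P θ θ χ).2.1.2.2.2.2.2
  have f8 : ∀ (g : G) (L : Subgroup G) (ψ : G → ℂ), (ψ ∈ IrrOn L ↔ cjF g ψ ∈ IrrOn (cjS g L)) :=
    fun g L ψ => (hFEQ G M g 1 P P L θ ψ χ).2.2.2.1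
  have f9 : ∀ (g : G) (L : Subgroup G) (η ψ : G → ℂ),
      (SB M L η ψ ↔ SB M (cjS g L) (cjF g η) (cjF g ψ)) :=
    fun g L η ψ => (hFEQ G M g 1 P P L η ψ χ).2.2.2.2.1
  have mono : ∀ (H L : Subgroup G), H ≤ L → ∀ η ψ : G → ℂ, (∀ x, x ∉ H → η x = 0) →
      (∀ x, x ∉ H → ψ x = 0) → SB M H η ψ → SB M L η ψ :=
    fun H L h η ψ => (hFSI p M hS G H L η ψ).1 h
  have hDL : D ≤ cz P := by
    intro d hd
    rw [Subgroup.mem_centralizer_iff]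
    intro q hq
    exact lo.rt.com q (hPD hq) d hd
  have hCL : cz D ≤ cz P := Subgroup.centralizer_le hPD
  have hDp : IsPGroup p D := lo.rt.dfa.pgrp
  have hθ : θ ∈ IrrOn (cz D) := lo.rt.th
  have hKL : cz Q ≤ cz P := Subgroup.centralizer_le hPQ
  have hind : Induces M η χ :=
    (((hFSI p M hS G (cz P) (cz P) η θ).2 (fun z hz => hηQ.1 z fun h => hz (hKL h))
      (fun z hz => hθ.1 z fun h => hz (hCL h)) hSB) χ).2 lo.rt.ind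
  obtain ⟨g, hgD, hgS⟩ := lo.con Q hQp η hηQ hind
  -- ψ₀
  obtain ⟨ψ₀, hψ₀, hψ₀S⟩ := hEXB p M hS G (cz P) D hDp hDL θ (by rw [inf_eq_right.2 hCL]; exact hθ)
  have hP'Q : cjS g P ≤ cjS g Q := (f4 g P Q).2 hPQ
  have hP'D : cjS g P ≤ D := hP'Q.trans hgD
  have hczle : cz (cjS g Q) ≤ cz (cjS g P) := Subgroup.centralizer_le hP'Q
  have hCQ : cz D ≤ cz (cjS g Q) := Subgroup.centralizer_le hgD
  have hψI : cjF g ψ₀ ∈ IrrOn (cz (cjS g P)) := by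
    rw [f3]
    exact (f8 g _ _).1 hψ₀
  have hηg : cjF g η ∈ IrrOn (cz (cjS g Q)) := by
    rw [f3]
    exact (f8 g _ _).1 hηQ
  have hs1 : SB M (cz (cjS g P)) θ (cjF g η) :=
    mono _ _ hczle _ _ (fun z hz => hθ.1 z fun h => hz (hCQ h)) hηg.1 hgS
  have hs2 : SB M (cz (cjS g P)) (cjF g η) (cjF g ψ₀) := by
    rw [f3]
    exact (f9 g _ _ _).1 (SB.trans hSB hψ₀S)
  have hs3 : SB M (cz (cjS g P)) θ (cjF g ψ₀) := SB.trans hs1 hs2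
  have hD₁ : IsPGroup p (cjS g D) := hDp.map _
  have hθ₁ : cjF g θ ∈ IrrOn (cz (cjS g D)) := by
    rw [f3]
    exact (f8 g _ _).1 hθ
  have hs4 : SB M (cz (cjS g P)) (cjF g θ) (cjF g ψ₀) := by
    rw [f3]
    exact (f9 g _ _ _).1 hψ₀S
  obtain ⟨k, hk, hkD, hkS⟩ := lo.cnj (cjS g P) hP'D (cjF g ψ₀) hψI hs3 (cjS g D) hD₁
    ((f4 g P D).2 hPD) (f6 g D) (cjF g θ) hθ₁ hs4
  -- t = k * g
  rw [f1] at hkD
  rw [f2] at hkS
  have htN : k * g ∈ nz D := (f5 _ _).1 hkD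
  have htT : k * g ∈ TT M D θ := ⟨htN, hkS⟩
  have htT' : (k * g)⁻¹ ∈ TT M D θ := (TT M D θ).inv_mem htT
  obtain ⟨htN', htS'⟩ := htT'
  have hl : (k * g)⁻¹ * g = g⁻¹ * k⁻¹ * g := by group
  have hlP : (k * g)⁻¹ * g ∈ cz P := by
    rw [f3] at hk
    have h1 := (cjS g (cz P)).inv_mem hk
    rw [mem_cjS] at h1
    rw [hl]
    exact h1
  have hlD : cjS ((k * g)⁻¹ * g) Q ≤ D := by
    rw [← f1]
    have h1 := (f4 (k * g)⁻¹ _ _).2 hgD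
    rw [(f5 _ D).2 htN'] at h1
    exact h1
  refine ⟨(k * g)⁻¹ * g, hlP, hlD, ?_⟩
  have hs5 : SB M (cz (cjS ((k * g)⁻¹ * g) Q)) (cjF (k * g)⁻¹ θ)
      (cjF ((k * g)⁻¹ * g) η) := by
    have h1 := (f9 (k * g)⁻¹ _ _ _).1 hgS
    rw [← f3, f1, f2] at h1
    exact h1
  have hs6 : SB M (cz (cjS ((k * g)⁻¹ * g) Q)) (cjF (k * g)⁻¹ θ) θ := by
    have h1 : cjF (k * g)⁻¹ θ ∈ IrrOn (cz D) := by
      have h2 := (f8 (k * g)⁻¹ _ _).1 hθ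
      rw [← f3, (f5 _ _).2 htN'] at h2
      exact h2
    exact mono _ _ (Subgroup.centralizer_le hlD) _ _ h1.1 hθ.1 htS'
  exact SB.trans (SB.symm hs6) hs5

end Pool.Agent.FI3F
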